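import Pool.Agent.Helper34.SH.Gl
import Pool.Agent.Helper53.LX.Th
import Pool.Agent.Helper65.LU.F
import Pool.Agent.Helper93.LH.Hf

/-!
PROJECT ALLQ (MP_274814_nt): the Fermat types are good.
-/

set_option autoImplicit false

namespace Pool.Agent.Helper34.SH

open Finset Pool.Agent.Helper34.LT LTG Pool.Agent.Helper34.LU Pool.Agent.Helper53.LE
open Pool.Agent.Helper13.LT (PS)
open Pool.Agent.Helper32.LU (Pr)
open Pool.Agent.Helper44.LT (PU)
open Pool.Agent.Helper53.LX

noncomputable section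

/-- algebraic Taylor coefficients are enough -/
theorem good_of_alg {q : ℕ} {s : Finset ℕ} {ρ : ℕ → ℂ} {κ : s → ℂ} {c : Polynomial ℤ → ℂ}
    {τ : (s → ℂ) → ℂ} (hs : HS q s) (hρ : ∀ u ∈ s, ρ u ≠ 0) (hκ : ∀ u, κ u ≠ 0)
    (hd : Differentiable ℂ τ) (h1 : τ 0 = 1) (hq : QPS q s ρ κ c τ) (a : (s → ℕ) → ℂ)
    (ha : PS a τ) (halg : ∀ m, IsAlgebraic ℚ (a m)) : Good q s ρ := by
  obtain ⟨E, hE, hR⟩ := Pool.Agent.Helper93.LH.H_theta hs hρ τ hd h1 hq a ha halg
  exact ⟨κ, c, τ, hs, hρ, hκ, hd, h1, hq, ⟨E, a, hE, hR, ha⟩, fun u =>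
    th_alg q s hs ρ κ c τ ⟨0, by rw [h1]; exact one_ne_zero⟩ hq u⟩

/-- **BASE**: the Fermat types are good with the scales `rhU` -/
theorem base (q : ℕ) (h3 : 3 ≤ q) : BASE q := by
  rintro a b ⟨ha, hb, hab⟩
  obtain ⟨τ, h⟩ := Pool.Agent.Helper65.LU.F_main q a b h3 ha hb hab
  have hq : q ≠ 0 := by omega
  have hs := half_PU q a b h3 ha hb hab
  have hd : Differentiable ℂ (fun z => τ (exL q a b z)) := by
    have h1 : Differentiable ℂ (fun z => exL q a b z) :=
      (LinearMap.toContinuousLinearMap (exL q a b)).differentiable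
    exact h.diff.comp h1
  obtain ⟨κ, c, f0, f, g1, g2, g3, g4, g5, g6, g7, g8, g9, g10, g11⟩ :=
    G_gen_im q (PU q a b) hs _ rfl (rhU q a b) (fun u hu => rhU_ne q a b u h3 ha hb hu) (a + b) hab
      (fun z => τ (exL q a b z)) hd
      (by
        rw [map_zero, h.zero])
      (by
        obtain ⟨z, hz1, hz2⟩ := h.ne
        refine ⟨fun u => z (inj q a b u), ?_⟩
        have h1 : exL q a b (fun u => z (inj q a b u)) = z := by
          funext u
          by_cases hu : (u : ℕ) ∈ PU q a b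
          · rw [exL_in q a b _ u hu]
            rfl
          · rw [exL_out q a b _ u hu]
            exact (hz1 u fun h' => hu ((mem_PU' q a b u).2 h')).symm
        change τ (exL q a b _) ≠ 0
        rw [h1]
        exact hz2)
      (by
        obtain ⟨D, hD, hr⟩ := h.rt
        exact ⟨D, hD, exL_rt q a b D 1 τ hr⟩)
      (by
        obtain ⟨w, hw⟩ := h.sym
        refine ⟨w, fun z => ?_⟩
        have h1 : exL q a b (fun u => zt q ^ ((u : ℕ) * (a + b)) * z u) =
            fun u : Phi q a b => zt q ^ ((u : ℕ) * (a + b)) * exL q a b z u := by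
          funext u
          by_cases hu : (u : ℕ) ∈ PU q a b
          · rw [exL_in q a b _ u hu, exL_in q a b _ u hu]
          · rw [exL_out q a b _ u hu, exL_out q a b _ u hu, mul_zero]
        change τ (exL q a b _) = _
        rw [h1, hw])
      (by
        intro P
        obtain ⟨l, c, hl⟩ := h.per (psq q * P)
        refine ⟨l.comp (exL q a b), c, fun z => ?_⟩
        change τ (exL q a b (z + _)) = Complex.exp (l (exL q a b z) + c) * τ (exL q a b z)
        rw [map_add, exL_lam q a b hq P, hl])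
  obtain ⟨D, hD, hr, -⟩ := g6
  obtain ⟨A, hA⟩ := hr
  -- the value at zero is rational
  have h00 : IsAlgebraic ℚ (f0 0) := by
    have h1 := hA 0
    have h2 : f0 0 = (A 0 : ℂ) / (D : ℂ) := by
      refine h1.unique ?_
      have h3 := hasSum_single (f := fun m : PU q a b → ℕ =>
        (A m : ℂ) / ((D : ℂ) ^ (∑ u, m u + 1) * ∏ u, ((m u).factorial : ℂ)) *
          ∏ u, (0 : PU q a b → ℂ) u ^ m u) 0 (by
        intro m hm
        obtain ⟨u, hu⟩ := Function.ne_iff.1 hm
        have h4 : ∏ u, (0 : PU q a b → ℂ) u ^ m u = 0 :=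
          Finset.prod_eq_zero (mem_univ u) (by
            rw [Pi.zero_apply]
            exact zero_pow hu)
        simp only [h4, mul_zero])
      simpa using h3
    rw [h2]
    exact (isAlgebraic_intCast _).mul (isAlgebraic_natCast D).inv
  refine good_of_alg (κ := κ) (c := c) (τ := fun z => (f0 0)⁻¹ * f0 z) hs
    (fun u hu => rhU_ne q a b u h3 ha hb hu) g1 (g2.const_mul _) (inv_mul_cancel₀ g11) ?_
    (fun m => (f0 0)⁻¹ * ((A m : ℂ) / ((D : ℂ) ^ (∑ u, m u + 1) *
      ∏ u, ((m u).factorial : ℂ)))) ?_ ?_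
  · intro P z
    change (f0 0)⁻¹ * f0 (z + _) = _ * ((f0 0)⁻¹ * f0 z)
    rw [g4 P z]
    ring
  · intro z
    have h1 := (hA z).mul_left (f0 0)⁻¹
    simpa only [mul_assoc] using h1
  · intro m
    refine IsAlgebraic.mul h00.inv ?_
    rw [div_eq_mul_inv]
    refine IsAlgebraic.mul (isAlgebraic_intCast _) (IsAlgebraic.inv ?_)
    refine IsAlgebraic.mul ((isAlgebraic_natCast D).pow _) ?_
    rw [← Nat.cast_prod]
    exact isAlgebraic_natCast _

end

end Pool.Agent.Helper34.SH
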