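import Pool.Agent.Helper34.LE.Fin
import Pool.Agent.Helper24.LU.Ts
import Pool.Agent.Helper34.LU.Fin

/-!
PROJECT ALLQ (MP_274814_nt): from the family side to the final theorem. `GT` is what the family side has
to deliver for EVERY CM type `s` of the field of the `q`-th roots of unity.
-/

set_option autoImplicit false

namespace Pool.Agent.Helper34.SH

open Finset Pool.Agent.Helper34.LT LTG Pool.Agent.Helper34.LU Pool.Agent.Helper53.LE
open Pool.Agent.Helper13.LT (PS)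
open Pool.Agent.Helper24.LU (KR HasInd Ind)

noncomputable section

/-- theta function of one CM type, with algebraic Taylor coefficients in coordinates whose scales are
Gamma values -/
structure GT (q : ℕ) (s : Finset ℕ) (ρ : ℕ → ℂ) (κ : s → ℂ) (c : Polynomial ℤ → ℂ)
    (τ : (s → ℂ) → ℂ) : Prop where
  half : HS q s
  rho : ∀ u ∈ s, ρ u ≠ 0
  kap : ∀ u, κ u ≠ 0
  diff : Differentiable ℂ τ
  one : τ 0 = 1
  qp : QPS q s ρ κ c τ
  arith : ∃ (E : IntermediateField ℚ ℂ) (a : (s → ℕ) → ℂ), FiniteDimensional ℚ E ∧ RTE E a ∧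
    PS a τ
  alg : ∀ u : s, IsAlgebraic ℚ (κ u * ρ u / (2 * Real.pi * Complex.I))
  gam : ∀ u ∈ s, IsAlgebraic (KR q) (ρ u ^ 2 / Real.pi)

/-- the units below `q / 2` -/
def s0 (q : ℕ) : Finset ℕ := (Icc 1 (q - 1)).filter fun u => Nat.Coprime u q ∧ 2 * u < q

/-- the same with `1` replaced by `q - 1` -/
def s1 (q : ℕ) : Finset ℕ :=
  (Icc 1 (q - 1)).filter fun u => Nat.Coprime u q ∧ (2 * u < q ∧ u ≠ 1 ∨ u = q - 1)

theorem ne_half {q u : ℕ} (h3 : 3 ≤ q) (hu : Nat.Coprime u q) : 2 * u ≠ q := by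
  intro h
  have h1 : u ∣ q := ⟨2, by omega⟩
  have h2 : u = 1 := Nat.Coprime.eq_one_of_dvd hu h1
  omega

theorem HS_s0 {q : ℕ} (h3 : 3 ≤ q) : HS q (s0 q) := by
  refine ⟨h3, ?_, ?_⟩
  · intro u hu
    rw [s0, mem_filter, mem_Icc] at hu
    exact ⟨hu.1.1, by omega, hu.2.1⟩
  · intro u h1 h2 hc
    have h4 := ne_half h3 hc
    have hc' : Nat.Coprime (q - u) q := (Nat.coprime_self_sub_left h2.le).2 hc
    rw [s0, mem_filter, mem_Icc, mem_filter, mem_Icc]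
    constructor
    · rintro ⟨-, -, h5⟩ ⟨-, -, h6⟩
      omega
    · intro h5
      refine ⟨⟨h1, by omega⟩, hc, ?_⟩
      by_contra h6
      exact h5 ⟨⟨by omega, by omega⟩, hc', by omega⟩

theorem HS_s1 {q : ℕ} (h3 : 3 ≤ q) : HS q (s1 q) := by
  refine ⟨h3, ?_, ?_⟩
  · intro u hu
    rw [s1, mem_filter, mem_Icc] at hu
    exact ⟨hu.1.1, by omega, hu.2.1⟩
  · intro u h1 h2 hc
    have h4 := ne_half h3 hc
    have hc' : Nat.Coprime (q - u) q := (Nat.coprime_self_sub_left h2.le).2 hc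
    rw [s1, mem_filter, mem_Icc, mem_filter, mem_Icc]
    constructor
    · rintro ⟨-, -, h5⟩ ⟨-, -, h6⟩
      omega
    · intro h5
      refine ⟨⟨h1, by omega⟩, hc, ?_⟩
      by_contra h6
      exact h5 ⟨⟨by omega, by omega⟩, hc', by omega⟩

theorem card_diff {q : ℕ} (h3 : 3 ≤ q) : (s0 q \ s1 q).card = 1 := by
  rw [card_eq_one]
  refine ⟨1, ?_⟩
  ext u
  rw [mem_sdiff, s0, s1, mem_filter, mem_Icc, mem_filter, mem_Icc, mem_singleton]
  constructor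
  · rintro ⟨⟨h1, hc, h2⟩, h4⟩
    by_contra h5
    exact h4 ⟨h1, hc, Or.inl ⟨h2, h5⟩⟩
  · rintro rfl
    refine ⟨⟨⟨le_rfl, by omega⟩, Nat.coprime_one_left q, by omega⟩, ?_⟩
    rintro ⟨-, -, h5⟩
    omega

theorem GT_kap {q : ℕ} {s : Finset ℕ} {ρ : ℕ → ℂ} {κ : s → ℂ} {c : Polynomial ℤ → ℂ}
    {τ : (s → ℂ) → ℂ} (h : GT q s ρ κ c τ) (u : s) : IsAlgebraic (KR q) (κ u ^ 2 / Real.pi) :=
  Pool.Agent.Helper24.LU.kap_sq_alg (h.rho u u.2) (h.gam u u.2) (h.alg u)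

theorem GT_tru {q : ℕ} {s t : Finset ℕ} {ρ1 ρ2 : ℕ → ℂ} {κ1 : s → ℂ} {κ2 : t → ℂ}
    {c1 c2 : Polynomial ℤ → ℂ} {f : (s → ℂ) → ℂ} {g : (t → ℂ) → ℂ}
    (h1 : GT q s ρ1 κ1 c1 f) (h2 : GT q t ρ2 κ2 c2 g) (N : ℕ) (i : II s t) :
    IsAlgebraic (KR q) (tru ρ1 ρ2 (fun u => 3 * κ1 u) (fun v => (N : ℂ) * (3 * κ2 v)) i ^ 2 /
      Real.pi) := by
  have h3 : IsAlgebraic (KR q) (9 : ℂ) := Pool.Agent.Helper24.LU.alg_K (by
    have := isAlgebraic_algebraMap (R := ℚ) (A := ℂ) (9 : ℚ)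
    simpa using this)
  have h4 : IsAlgebraic (KR q) (N : ℂ) := Pool.Agent.Helper24.LU.alg_K (by
    have := isAlgebraic_algebraMap (R := ℚ) (A := ℂ) (N : ℚ)
    simpa using this)
  rcases i with (u | v) | (u | v)
  · exact h1.gam u u.2
  · exact h2.gam v v.2
  · have h5 := h3.mul (GT_kap h1 u)
    have h6 : (tru ρ1 ρ2 (fun u => 3 * κ1 u) (fun v => (N : ℂ) * (3 * κ2 v))
        (Sum.inr (Sum.inl u)) ^ 2 / Real.pi : ℂ) = 9 * (κ1 u ^ 2 / Real.pi) := by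
      simp only [tru, Sum.elim_inr, Sum.elim_inl]
      ring
    rw [h6]
    exact h5
  · have h5 := (h3.mul (h4.pow 2)).mul (GT_kap h2 v)
    have h6 : (tru ρ1 ρ2 (fun u => 3 * κ1 u) (fun v => (N : ℂ) * (3 * κ2 v))
        (Sum.inr (Sum.inr v)) ^ 2 / Real.pi : ℂ) = 9 * (N : ℂ) ^ 2 * (κ2 v ^ 2 / Real.pi) := by
      simp only [tru, Sum.elim_inr]
      ring
    rw [h6]
    exact h5

/-- two CM types which differ at `r` places and `n r < φ(q) / 2` -/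
theorem pair {q : ℕ} {s t : Finset ℕ} {ρ1 ρ2 : ℕ → ℂ} {κ1 : s → ℂ} {κ2 : t → ℂ}
    {c1 c2 : Polynomial ℤ → ℂ} {f : (s → ℂ) → ℂ} {g : (t → ℂ) → ℂ}
    (h1 : GT q s ρ1 κ1 c1 f) (h2 : GT q t ρ2 κ2 c2 g) (hst : s ≠ t) (n : ℕ)
    (hn : n * (s \ t).card < q.totient / 2) : HasInd q (n + 1) := by
  obtain ⟨E, a, hE, hEa, ha⟩ := h1.arith
  obtain ⟨E', b, hE', hEb, hb⟩ := h2.arith
  have hs : (1 : ℝ) ≤ Real.sqrt Real.pi := by
    rw [Real.one_le_sqrt]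
    linarith [Real.pi_gt_three]
  have hs0 : ((Real.sqrt Real.pi : ℝ) : ℂ) ≠ 0 := by
    exact_mod_cast (by linarith : Real.sqrt Real.pi ≠ 0)
  obtain ⟨N, k, hN, hk⟩ := Pool.Agent.Helper34.LEF.pair_E h1.half h2.half hst ρ1 ρ2 h1.rho h2.rho κ1 κ2
    h1.kap h2.kap c1 c2 f g h1.diff h2.diff h1.one h2.one h1.qp h2.qp E E' a b hEa hEb ha hb
    (fun _ => ((Real.sqrt Real.pi : ℝ) : ℂ)⁻¹) (fun _ => inv_ne_zero hs0) (fun _ => by
      rw [norm_inv, Complex.norm_real, Real.norm_of_nonneg (by linarith)]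
      exact inv_le_one_of_one_le₀ hs) n hn
  refine HasInd.of_alg (fun i : II s t => tru ρ1 ρ2 (fun u => 3 * κ1 u)
    (fun v => (N : ℂ) * (3 * κ2 v)) i * ((Real.sqrt Real.pi : ℝ) : ℂ)⁻¹) ?_ k hk
  intro i
  apply IsAlgebraic.of_pow (n := 2) two_pos
  have h : (tru ρ1 ρ2 (fun u => 3 * κ1 u) (fun v => (N : ℂ) * (3 * κ2 v)) i *
      ((Real.sqrt Real.pi : ℝ) : ℂ)⁻¹) ^ 2 =
      tru ρ1 ρ2 (fun u => 3 * κ1 u) (fun v => (N : ℂ) * (3 * κ2 v)) i ^ 2 / Real.pi := by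
    rw [mul_pow, inv_pow, ← Complex.ofReal_pow, Real.sq_sqrt Real.pi_pos.le, div_eq_mul_inv]
  rw [h]
  exact GT_tru h1 h2 N i

/-- **The final theorem from the family side.** -/
theorem all_of_GT (H : ∀ q : ℕ, 6 ≤ q.totient → ∀ s : Finset ℕ, HS q s →
      ∃ (ρ : ℕ → ℂ) (κ : s → ℂ) (c : Polynomial ℤ → ℂ) (τ : (s → ℂ) → ℂ), GT q s ρ κ c τ)
    (q : ℕ) (h3 : 3 ≤ q) : Ind q (q.totient / 2) := by
  rcases Nat.lt_or_ge q.totient 6 with h | h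
  · have h60 : q ≠ 60 := by
      rintro rfl
      revert h
      decide
    have h1 := Pool.Agent.Helper34.LUM.final.2.2.2.1 q h3 h60
    rwa [min_eq_right (by omega)] at h1
  · obtain ⟨ρ1, κ1, c1, f, h1⟩ := H q h (s0 q) (HS_s0 h3)
    obtain ⟨ρ2, κ2, c2, g, h2⟩ := H q h (s1 q) (HS_s1 h3)
    have hne : s0 q ≠ s1 q := by
      intro h4
      have h5 := card_diff h3
      rw [← h4, sdiff_self] at h5
      simp at h5
    have h4 := pair h1 h2 hne (q.totient / 2 - 1) (by rw [card_diff h3]; omega)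
    rw [show q.totient / 2 - 1 + 1 = q.totient / 2 by omega] at h4
    exact h4.toInd

end

end Pool.Agent.Helper34.SH
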