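import Pool.Agent.Helper34.SH.Fa
import Pool.Agent.Helper65.SH.Gf

/-!
PROJECT ALLQ (MP_274814_nt): from the family theorem, the uniqueness of the scales and the Fermat types
to all types.
-/

set_option autoImplicit false

namespace Pool.Agent.Helper34.SH

open Finset Pool.Agent.Helper34.LT LTG Pool.Agent.Helper34.LU Pool.Agent.Helper53.LE
open Pool.Agent.Helper13.LT (PS)
open Pool.Agent.Helper24.LU (KR HasInd Ind)
open Pool.Agent.Helper65.SH (IsT Un sw types_zero isT_PU PU_neg mem_Un neg_Un mem_PU)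
open Pool.Agent.Helper32.LU (Pr)
open Pool.Agent.Helper44.LT (PU)

noncomputable section

/-- the type `s` is good with scales `ρ` -/
def Good (q : ℕ) (s : Finset ℕ) (ρ : ℕ → ℂ) : Prop :=
  ∃ (κ : s → ℂ) (c : Polynomial ℤ → ℂ) (τ : (s → ℂ) → ℂ),
    HS q s ∧ (∀ u ∈ s, ρ u ≠ 0) ∧ (∀ u, κ u ≠ 0) ∧ Differentiable ℂ τ ∧ τ 0 = 1 ∧
    QPS q s ρ κ c τ ∧
    (∃ (E : IntermediateField ℚ ℂ) (a : (s → ℕ) → ℂ), FiniteDimensional ℚ E ∧ RTE E a ∧
      PS a τ) ∧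
    ∀ u : s, IsAlgebraic ℚ (κ u * ρ u / (2 * Real.pi * Complex.I))

theorem HS_iff {q : ℕ} (h3 : 3 ≤ q) (s : Finset ℕ) : HS q s ↔ IsT q s := by
  constructor
  · intro h
    refine ⟨fun u hu => ?_, fun u hu => ?_⟩
    · obtain ⟨h1, h2, h4⟩ := h.mem u hu
      exact mem_Un.2 ⟨h1, h2, h4⟩
    · obtain ⟨h1, h2, h4⟩ := mem_Un.1 hu
      exact h.half u h1 h2 h4
  · rintro ⟨h1, h2⟩
    exact ⟨h3, fun u hu => mem_Un.1 (h1 hu), fun u h4 h5 h6 => h2 u (mem_Un.2 ⟨h4, h5, h6⟩)⟩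

theorem mem_sw_iff {q u x : ℕ} {Φ : Finset ℕ} : x ∈ sw q u Φ ↔ x = q - u ∨ x ≠ u ∧ x ∈ Φ := by
  rw [sw, mem_insert, mem_erase]

theorem card_isT {q : ℕ} (h3 : 3 ≤ q) {Φ : Finset ℕ} (h : IsT q Φ) : Φ.card = q.totient / 2 :=
  Pool.Agent.Helper53.LX.card_half q Φ ((HS_iff h3 Φ).2 h)

/-- there are two Fermat types which are neither equal nor complementary -/
theorem two_types (q : ℕ) (h3 : 3 ≤ q) (h4 : 4 ≤ q.totient) : ∃ a b a' b' : ℕ, Pr q a b ∧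
    Pr q a' b' ∧ (∃ u, u ∈ PU q a b ∧ u ∈ PU q a' b') ∧ ∃ u, u ∈ PU q a b ∧ u ∉ PU q a' b' := by
  classical
  by_contra hcon
  push Not at hcon
  have hF : Pr q 1 (q - 2) := by
    refine ⟨fun h => ?_, fun h => ?_, ?_⟩
    · have := Nat.le_of_dvd one_pos h
      omega
    · have := Nat.le_of_dvd (by omega) h
      omega
    · rw [show 1 + (q - 2) = q - 1 by omega]
      exact (Nat.coprime_self_sub_left (m := 1) (n := q) (by omega)).2 (Nat.coprime_one_left q)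
  set F := PU q 1 (q - 2) with hFdef
  have hFT : IsT q F := isT_PU h3 hF
  have hcF : 1 < F.card := by rw [card_isT h3 hFT]; omega
  obtain ⟨u1, hu1, u2, hu2, h12⟩ := one_lt_card.1 hcF
  -- the signs
  have h1U := mem_Un.1 (hFT.1 hu1)
  have h2U := mem_Un.1 (hFT.1 hu2)
  have hn1 : q - u1 ∉ F := (hFT.2 u1 (hFT.1 hu1)).1 hu1
  have hn2 : q - u2 ∉ F := (hFT.2 u2 (hFT.1 hu2)).1 hu2
  let P : Finset ℕ → ℕ → ℚ := fun Φ _ => (if u1 ∈ Φ then (1 : ℚ) else -1) +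
    (if u2 ∈ Φ then (-1 : ℚ) else 1)
  have hex : ∀ (w : ℕ), w ∈ Un q → ∀ Φ, IsT q Φ → ∀ u v, u ∈ Φ → v ∈ Φ → u ≠ v →
      (if w ∈ Φ then (1 : ℚ) else -1) + (if w ∈ sw q u (sw q v Φ) then (1 : ℚ) else -1) =
      (if w ∈ sw q u Φ then (1 : ℚ) else -1) + (if w ∈ sw q v Φ then (1 : ℚ) else -1) := by
    intro w hw Φ hΦ u v hu hv huv
    have hwU := mem_Un.1 hw
    have huU := mem_Un.1 (hΦ.1 hu)
    have hvU := mem_Un.1 (hΦ.1 hv)
    have hnu : q - u ∉ Φ := (hΦ.2 u (hΦ.1 hu)).1 hu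
    have hnv : q - v ∉ Φ := (hΦ.2 v (hΦ.1 hv)).1 hv
    have hne1 : q - u ≠ v := fun h => hnu (h ▸ hv)
    have hne2 : q - v ≠ u := fun h => hnv (h ▸ hu)
    have hne3 : q - u ≠ q - v := by omega
    simp only [mem_sw_iff]
    by_cases e1 : w = u
    · subst e1
      have a1 : w ≠ q - w := fun h => hnu (h ▸ hu)
      have a2 : w ≠ q - v := fun h => hne2 h.symm
      simp [hu, huv, a1, a2]
    · by_cases e2 : w = v
      · subst e2
        have a1 : w ≠ q - u := fun h => hne1 h.symm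
        have a2 : w ≠ q - w := fun h => hnv (h ▸ hv)
        simp [hv, e1, a1, a2]
      · by_cases e3 : w = q - u
        · subst e3
          simp [hnu, hne1, hne3, e1]
        · by_cases e4 : w = q - v
          · subst e4
            simp [hnv, e1, e2, e3]
          · simp [e1, e2, e3, e4]
  have hz := types_zero (C := ℚ) q h3 P (by
    intro Φ hΦ u v s hu hv _ huv _ _
    have e1 := hex u1 (hFT.1 hu1) Φ hΦ u v hu hv huv
    have e2 := hex u2 (hFT.1 hu2) Φ hΦ u v hu hv huv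
    have e3 : ∀ Θ : Finset ℕ, (if u2 ∈ Θ then (-1 : ℚ) else 1) =
        -(if u2 ∈ Θ then (1 : ℚ) else -1) := by
      intro Θ
      split_ifs <;> simp
    simp only [P, e3]
    linear_combination e1 - e2) (by
    intro a b hab s hs
    have hT := isT_PU h3 hab
    by_cases h : ∃ u, u ∈ F ∧ u ∈ PU q a b
    · obtain ⟨u, hu, hu'⟩ := h
      have h5 := hcon 1 (q - 2) a b hF hab ⟨u, hu, hu'⟩
      simp only [P, if_pos (h5 u1 hu1), if_pos (h5 u2 hu2)]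
      norm_num
    · push Not at h
      simp only [P, if_neg (h u1 hu1), if_neg (h u2 hu2)]
      norm_num)
  have h5 := hz (sw q u2 F) (hFT.sw h3 hu2) u1 (mem_sw_iff.2 (Or.inr ⟨h12, hu1⟩))
  have h6 : u1 ∈ sw q u2 F := mem_sw_iff.2 (Or.inr ⟨h12, hu1⟩)
  have h7 : u2 ∉ sw q u2 F := by
    rw [mem_sw_iff]
    rintro (h | ⟨h, _⟩)
    · exact hn2 (h ▸ hu2)
    · exact h rfl
  simp only [P, if_pos h6, if_neg h7] at h5
  norm_num at h5

/-- hypothesis: the family theorem -/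
def FAM (q : ℕ) : Prop := ∀ (Φ1 Φ2 Ψ Ψ' : Finset ℕ) (ρ1 ρ2 : ℕ → ℂ), Good q Φ1 ρ1 →
  Good q Φ2 ρ2 → IsT q Ψ → IsT q Ψ' → Ψ ∪ Ψ' = Φ1 ∪ Φ2 → Ψ ∩ Ψ' = Φ1 ∩ Φ2 →
  (Φ1 ∩ Φ2).Nonempty → ∃ ρ3 ρ4, Good q Ψ ρ3 ∧ Good q Ψ' ρ4 ∧
    ∀ s ∈ Φ1 ∩ Φ2, IsAlgebraic ℚ (ρ1 s * ρ2 s / (ρ3 s * ρ4 s))

/-- hypothesis: uniqueness of the scales -/
def UNI (q : ℕ) : Prop := ∀ (Φ : Finset ℕ) (ρ ρ' : ℕ → ℂ), Good q Φ ρ → Good q Φ ρ' →
  ∀ u ∈ Φ, IsAlgebraic ℚ (ρ u / ρ' u)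

/-- hypothesis: the Fermat types -/
def BASE (q : ℕ) : Prop := ∀ a b, Pr q a b → Good q (PU q a b) (rhU q a b)

/-- `Φ` where `S` holds, `Θ` elsewhere -/
def mix (q : ℕ) (S : ℕ → Prop) (Φ Θ : Finset ℕ) : Finset ℕ :=
  @Finset.filter ℕ (fun u => (S u ∧ u ∈ Φ) ∨ (¬ S u ∧ u ∈ Θ)) (Classical.decPred _) (Un q)

theorem mem_mix {q : ℕ} {S : ℕ → Prop} {Φ Θ : Finset ℕ} {u : ℕ} :
    u ∈ mix q S Φ Θ ↔ u ∈ Un q ∧ ((S u ∧ u ∈ Φ) ∨ (¬ S u ∧ u ∈ Θ)) := by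
  rw [mix]
  exact @mem_filter ℕ _ (Classical.decPred _) _ _

theorem isT_mix {q : ℕ} {S : ℕ → Prop} (hS : ∀ u ∈ Un q, (S u ↔ S (q - u))) {Φ Θ : Finset ℕ}
    (h1 : IsT q Φ) (h2 : IsT q Θ) : IsT q (mix q S Φ Θ) := by
  refine ⟨fun u hu => (mem_mix.1 hu).1, fun u hu => ?_⟩
  have h3 := h1.2 u hu
  have h4 := h2.2 u hu
  have h5 := hS u hu
  have h6 := neg_Un hu
  rw [mem_mix, mem_mix]
  tauto

/-- the complementary type -/
def cpl (q : ℕ) (Θ : Finset ℕ) : Finset ℕ := Un q \ Θ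

theorem isT_cpl {q : ℕ} {Θ : Finset ℕ} (h : IsT q Θ) : IsT q (cpl q Θ) := by
  refine ⟨sdiff_subset, fun u hu => ?_⟩
  have h1 := h.2 u hu
  have h2 := neg_Un hu
  rw [cpl, mem_sdiff, mem_sdiff]
  tauto

theorem all_good (q : ℕ) (h3 : 3 ≤ q) (h4 : 4 ≤ q.totient) (hB : BASE q) (hFam : FAM q)
    (Θ : Finset ℕ) (hΘ : IsT q Θ) : ∃ ρ, Good q Θ ρ := by
  classical
  obtain ⟨a, b, a', b', h1, h2, ⟨w, hw1, hw2⟩, ⟨w', hw3, hw4⟩⟩ := two_types q h3 h4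
  set F1 := PU q a b with hF1
  set F2 := PU q a' b' with hF2
  have hT1 : IsT q F1 := isT_PU h3 h1
  have hT2 : IsT q F2 := isT_PU h3 h2
  have g1 := hB a b h1
  have g2 := hB a' b' h2
  obtain ⟨hc2, hc2'⟩ := PU_neg h3 h2
  have g2' := hB _ _ hc2
  obtain ⟨hc1, hc1'⟩ := PU_neg h3 h1
  have g1' := hB _ _ hc1
  have e2 : PU q ((q - 1) * a') ((q - 1) * b') = cpl q F2 := by
    ext u
    rw [cpl, mem_sdiff]
    constructor
    · intro hu
      have hU := (isT_PU h3 hc2).1 hu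
      exact ⟨hU, (hc2' u hU).1 hu⟩
    · rintro ⟨hU, hu⟩
      exact (hc2' u hU).2 hu
  have e1 : PU q ((q - 1) * a) ((q - 1) * b) = cpl q F1 := by
    ext u
    rw [cpl, mem_sdiff]
    constructor
    · intro hu
      have hU := (isT_PU h3 hc1).1 hu
      exact ⟨hU, (hc1' u hU).1 hu⟩
    · rintro ⟨hU, hu⟩
      exact (hc1' u hU).2 hu
  rw [e2] at g2'
  rw [e1] at g1'
  set S : ℕ → Prop := fun u => (u ∈ F1 ↔ u ∈ F2) with hS
  have hSn : ∀ u ∈ Un q, (S u ↔ S (q - u)) := by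
    intro u hu
    have h5 := hT1.2 u hu
    have h6 := hT2.2 u hu
    simp only [hS]
    tauto
  have hU : ∀ {Φ : Finset ℕ}, IsT q Φ → ∀ {u}, u ∈ Φ → u ∈ Un q := fun h _ hu => h.1 hu
  obtain ⟨ρ1, _, k1, -, -⟩ := hFam F1 F2 (mix q S F1 Θ) (mix q S F1 (cpl q Θ)) _ _ g1 g2
    (isT_mix hSn hT1 hΘ) (isT_mix hSn hT1 (isT_cpl hΘ)) (by
      ext u
      have a1 := @hU F1 hT1 u
      have a2 := @hU F2 hT2 u
      simp only [mem_union, mem_mix, hS, cpl, mem_sdiff]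
      tauto) (by
      ext u
      have a1 := @hU F1 hT1 u
      have a2 := @hU F2 hT2 u
      simp only [mem_inter, mem_mix, hS, cpl, mem_sdiff]
      tauto) ⟨w, mem_inter.2 ⟨hw1, hw2⟩⟩
  obtain ⟨ρ2, _, k2, -, -⟩ := hFam F1 (cpl q F2) (mix q S Θ F1) (mix q S (cpl q Θ) F1) _ _ g1 g2'
    (isT_mix hSn hΘ hT1) (isT_mix hSn (isT_cpl hΘ) hT1) (by
      ext u
      have a1 := @hU F1 hT1 u
      have a2 := @hU F2 hT2 u
      simp only [mem_union, mem_mix, hS, cpl, mem_sdiff]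
      tauto) (by
      ext u
      have a1 := @hU F1 hT1 u
      have a2 := @hU F2 hT2 u
      simp only [mem_inter, mem_mix, hS, cpl, mem_sdiff]
      tauto) ⟨w', mem_inter.2 ⟨hw3, mem_sdiff.2 ⟨hT1.1 hw3, hw4⟩⟩⟩
  by_cases hne : (Θ ∩ F1).Nonempty
  · obtain ⟨ρ3, _, k3, -, -⟩ := hFam (mix q S F1 Θ) (mix q S Θ F1) Θ F1 _ _ k1 k2 hΘ hT1 (by
        ext u
        have a1 := @hU F1 hT1 u
        have a2 := @hU Θ hΘ u
        simp only [mem_union, mem_mix, hS]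
        tauto) (by
        ext u
        have a1 := @hU F1 hT1 u
        have a2 := @hU Θ hΘ u
        simp only [mem_inter, mem_mix, hS]
        tauto) (by
        obtain ⟨x, hx⟩ := hne
        refine ⟨x, ?_⟩
        have a1 := @hU F1 hT1 x
        rw [mem_inter] at hx
        simp only [mem_inter, mem_mix, hS]
        tauto)
    exact ⟨ρ3, k3⟩
  · have e3 : Θ = cpl q F1 := by
      ext u
      rw [cpl, mem_sdiff]
      constructor
      · intro hu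
        exact ⟨hΘ.1 hu, fun hu' => hne ⟨u, mem_inter.2 ⟨hu, hu'⟩⟩⟩
      · rintro ⟨hu, hu'⟩
        by_contra hu''
        have a1 : q - u ∈ Θ := by
          by_contra h5
          exact hu'' ((hΘ.2 u hu).2 h5)
        have a2 : q - u ∈ F1 := by
          by_contra h5
          exact hu' ((hT1.2 u hu).2 h5)
        exact hne ⟨q - u, mem_inter.2 ⟨a1, a2⟩⟩
    rw [e3]
    exact ⟨_, g1'⟩

/-- **All types**: the glue. `cls` is the class of a number modulo the numbers which are algebraic over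
the ratios. -/
theorem all_GT (q : ℕ) (h3 : 3 ≤ q) (h4 : 4 ≤ q.totient) (hB : BASE q) (hFam : FAM q)
    (hU : UNI q) {C : Type} [AddCommGroup C] [Module ℚ C] (cls : ℂ → C)
    (hmul : ∀ x y : ℂ, x ≠ 0 → y ≠ 0 → cls (x * y) = cls x + cls y)
    (hcls : ∀ x : ℂ, x ≠ 0 → (cls x = 0 ↔ IsAlgebraic (KR q) x)) (s : Finset ℕ) (hs : HS q s) :
    ∃ (ρ : ℕ → ℂ) (κ : s → ℂ) (c : Polynomial ℤ → ℂ) (τ : (s → ℂ) → ℂ), GT q s ρ κ c τ := by
  classical
  have hall : ∀ Θ, IsT q Θ → ∃ ρ, Good q Θ ρ := all_good q h3 h4 hB hFam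
  let R : Finset ℕ → ℕ → ℂ := fun Θ => if h : IsT q Θ then Classical.choose (hall Θ h) else 0
  have hR : ∀ Θ, IsT q Θ → Good q Θ (R Θ) := by
    intro Θ h
    simp only [R, dif_pos h]
    exact Classical.choose_spec (hall Θ h)
  have hR0 : ∀ Θ, IsT q Θ → ∀ u ∈ Θ, R Θ u ≠ 0 := by
    intro Θ h u hu
    obtain ⟨_, _, _, _, h5, _⟩ := hR Θ h
    exact h5 u hu
  have hpi : (Real.pi : ℂ) ≠ 0 := by exact_mod_cast Real.pi_ne_zero
  have halg : ∀ x : ℂ, x ≠ 0 → IsAlgebraic ℚ x → cls x = 0 := fun x hx h =>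
    (hcls x hx).2 (Pool.Agent.Helper24.LU.alg_K h)
  have hone : cls 1 = 0 := halg 1 one_ne_zero (isAlgebraic_one)
  have hinv : ∀ x : ℂ, x ≠ 0 → cls x⁻¹ = -cls x := by
    intro x hx
    have h5 := hmul x x⁻¹ hx (inv_ne_zero hx)
    rw [mul_inv_cancel₀ hx, hone] at h5
    exact (neg_eq_of_add_eq_zero_right h5.symm).symm
  have hdiv : ∀ x y : ℂ, x ≠ 0 → y ≠ 0 → cls (x / y) = cls x - cls y := by
    intro x y hx hy
    rw [div_eq_mul_inv, hmul x _ hx (inv_ne_zero hy), hinv y hy, sub_eq_add_neg]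
  have heq : ∀ x y : ℂ, x ≠ 0 → y ≠ 0 → IsAlgebraic ℚ (x / y) → cls x = cls y := by
    intro x y hx hy h
    have h5 := halg (x / y) (div_ne_zero hx hy) h
    rw [hdiv x y hx hy] at h5
    exact sub_eq_zero.1 h5
  let P : Finset ℕ → ℕ → C := fun Θ u => cls (R Θ u ^ 2 / Real.pi)
  have hPexp : ∀ Θ, IsT q Θ → ∀ u ∈ Θ, P Θ u = cls (R Θ u) + cls (R Θ u) - cls Real.pi := by
    intro Θ h u hu
    have h5 := hR0 Θ h u hu
    simp only [P]
    rw [hdiv _ _ (pow_ne_zero 2 h5) hpi, sq, hmul _ _ h5 h5]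
  have hz := types_zero (C := C) q h3 P (by
    intro Φ hΦ u v s hu hv hsm huv hsu hsv
    have hnu : q - u ∉ Φ := (hΦ.2 u (hΦ.1 hu)).1 hu
    have hnv : q - v ∉ Φ := (hΦ.2 v (hΦ.1 hv)).1 hv
    have huU := mem_Un.1 (hΦ.1 hu)
    have hvU := mem_Un.1 (hΦ.1 hv)
    have hne1 : q - u ≠ v := fun h => hnu (h ▸ hv)
    have hne2 : q - v ≠ u := fun h => hnv (h ▸ hu)
    have hne3 : q - u ≠ q - v := by omega
    have hne4 : q - u ≠ u := by
      intro h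
      rw [h] at hnu
      exact hnu hu
    have hne5 : q - v ≠ v := by
      intro h
      rw [h] at hnv
      exact hnv hv
    have t1 : IsT q (sw q v Φ) := hΦ.sw h3 hv
    have hu' : u ∈ sw q v Φ := mem_sw_iff.2 (Or.inr ⟨huv, hu⟩)
    have t2 : IsT q (sw q u (sw q v Φ)) := t1.sw h3 hu'
    have t3 : IsT q (sw q u Φ) := hΦ.sw h3 hu
    have m1 : s ∈ sw q v Φ := mem_sw_iff.2 (Or.inr ⟨hsv, hsm⟩)
    have m2 : s ∈ sw q u (sw q v Φ) := mem_sw_iff.2 (Or.inr ⟨hsu, m1⟩)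
    have m3 : s ∈ sw q u Φ := mem_sw_iff.2 (Or.inr ⟨hsu, hsm⟩)
    obtain ⟨ρ3, ρ4, k3, k4, k5⟩ := hFam Φ (sw q u (sw q v Φ)) (sw q u Φ) (sw q v Φ) _ _
      (hR _ hΦ) (hR _ t2) t3 t1 (by
        ext x
        simp only [mem_union, mem_sw_iff]
        by_cases x1 : x = u
        · subst x1; simp [hu, huv]
        · by_cases x2 : x = v
          · subst x2; simp [hv, x1]
          · tauto) (by
        ext x
        simp only [mem_inter, mem_sw_iff]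
        by_cases x1 : x = u
        · subst x1
          have a1 : x ≠ q - x := fun h => hne4 h.symm
          have a2 : x ≠ q - v := fun h => hne2 h.symm
          simp [a1, a2]
        · by_cases x2 : x = v
          · subst x2
            have a1 : x ≠ q - u := fun h => hne1 h.symm
            have a2 : x ≠ q - x := fun h => hne5 h.symm
            simp [a1, a2]
          · by_cases x3 : x = q - u
            · subst x3
              simp [hnu, hne3]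
            · by_cases x4 : x = q - v
              · subst x4
                simp [hnv, x3]
              · tauto) ⟨s, mem_inter.2 ⟨hsm, m2⟩⟩
    have z1 := hR0 _ hΦ s hsm
    have z2 := hR0 _ t2 s m2
    have z3 := hR0 _ t3 s m3
    have z4 := hR0 _ t1 s m1
    have y3 : ρ3 s ≠ 0 := by
      obtain ⟨_, _, _, _, h5, _⟩ := k3
      exact h5 s m3
    have y4 : ρ4 s ≠ 0 := by
      obtain ⟨_, _, _, _, h5, _⟩ := k4
      exact h5 s m1
    have c1 := heq _ _ (mul_ne_zero z1 z2) (mul_ne_zero y3 y4)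
      (k5 s (mem_inter.2 ⟨hsm, m2⟩))
    rw [hmul _ _ z1 z2, hmul _ _ y3 y4] at c1
    have c3 := heq _ _ y3 z3 (hU _ _ _ k3 (hR _ t3) s m3)
    have c4 := heq _ _ y4 z4 (hU _ _ _ k4 (hR _ t1) s m1)
    rw [hPexp _ hΦ s hsm, hPexp _ t2 s m2, hPexp _ t3 s m3, hPexp _ t1 s m1]
    rw [c3, c4] at c1
    have c5 : cls (R Φ s) + cls (R (sw q u (sw q v Φ)) s) -
        (cls (R (sw q u Φ) s) + cls (R (sw q v Φ) s)) = 0 := sub_eq_zero.2 c1
    rw [← sub_eq_zero]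
    calc _ = (cls (R Φ s) + cls (R (sw q u (sw q v Φ)) s) -
        (cls (R (sw q u Φ) s) + cls (R (sw q v Φ) s))) +
        (cls (R Φ s) + cls (R (sw q u (sw q v Φ)) s) -
        (cls (R (sw q u Φ) s) + cls (R (sw q v Φ) s))) := by abel
      _ = 0 := by rw [c5, add_zero]) (by
    intro a b hab s hs'
    have hT := isT_PU h3 hab
    have h5 := hR0 _ hT s hs'
    have h6 : rhU q a b s ≠ 0 := by
      obtain ⟨_, _, _, _, h7, _⟩ := hB a b hab
      exact h7 s hs'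
    have h7 := heq _ _ h5 h6 (hU _ _ _ (hR _ hT) (hB a b hab) s hs')
    have h8 := (hcls (rhU q a b s ^ 2 / Real.pi) (div_ne_zero (pow_ne_zero 2 h6) hpi)).2
      (Pool.Agent.Helper24.LU.rhU_sq_alg (by omega) hs')
    rw [hdiv _ _ (pow_ne_zero 2 h6) hpi, sq, hmul _ _ h6 h6] at h8
    rw [hPexp _ hT s hs', h7]
    exact h8)
  have hsT : IsT q s := (HS_iff h3 s).1 hs
  obtain ⟨κ, c, τ, a1, a2, a3, a4, a5, a6, a7, a8⟩ := hR s hsT
  refine ⟨R s, κ, c, τ, a1, a2, a3, a4, a5, a6, a7, a8, fun u hu => ?_⟩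
  exact (hcls _ (div_ne_zero (pow_ne_zero 2 (a2 u hu)) hpi)).1 (hz s hsT u hu)

end

end Pool.Agent.Helper34.SH
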