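import Pool.Agent.Helper49.SH.Df
import Pool.Agent.Helper96.SH.Sb

/-!
PROJECT ALLQ (MP_274814_nt), block K_GT: derivatives of theta functions with algebraic values.
-/

set_option autoImplicit false

namespace Pool.Agent.Helper34.SH

open Finset Complex Pool.Agent.Helper49.SH

noncomputable section

variable {ι : Type} [Fintype ι]

/-! ### directional derivatives of entire functions -/

/-- derivative in the direction `e` -/
def dd (e : ι → ℂ) (A : (ι → ℂ) → ℂ) : (ι → ℂ) → ℂ := fun w => fderiv ℂ A w e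

theorem dfm {A B : (ι → ℂ) → ℂ} (hA : Differentiable ℂ A) (hB : Differentiable ℂ B) :
    Differentiable ℂ (fun w => A w * B w) := hA.mul hB

theorem dfa {A B : (ι → ℂ) → ℂ} (hA : Differentiable ℂ A) (hB : Differentiable ℂ B) :
    Differentiable ℂ (fun w => A w + B w) := hA.add hB

theorem dfs {A B : (ι → ℂ) → ℂ} (hA : Differentiable ℂ A) (hB : Differentiable ℂ B) :
    Differentiable ℂ (fun w => A w - B w) := hA.sub hB

theorem dfc {A : (ι → ℂ) → ℂ} (hA : Differentiable ℂ A) (c : ℂ) :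
    Differentiable ℂ (fun w => c * A w) := hA.const_mul c

theorem cd_of_diff {A : (ι → ℂ) → ℂ} (h : Differentiable ℂ A) (n : ℕ∞) : ContDiff ℂ n A := by
  classical
  rw [contDiff_iff_contDiffAt]
  intro x
  exact (Pool.Agent.Helper96.SH.analyticOnNhd_of_differentiableOn isOpen_univ
    h.differentiableOn x (Set.mem_univ x)).contDiffAt

theorem fd_diff {A : (ι → ℂ) → ℂ} (h : Differentiable ℂ A) : Differentiable ℂ (fderiv ℂ A) :=
  ((cd_of_diff h 2).fderiv_right (m := 1) (by norm_num)).differentiable (by norm_num)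

theorem dd_diff {A : (ι → ℂ) → ℂ} (h : Differentiable ℂ A) (e : ι → ℂ) :
    Differentiable ℂ (dd e A) := (fd_diff h).clm_apply (differentiable_const e)

theorem dd_comm {A : (ι → ℂ) → ℂ} (h : Differentiable ℂ A) (e e' : ι → ℂ) :
    dd e (dd e' A) = dd e' (dd e A) := by
  funext w
  have h1 : ∀ x y : ι → ℂ, dd x (dd y A) w = fderiv ℂ (fderiv ℂ A) w x y := by
    intro x y
    change fderiv ℂ (fun w => fderiv ℂ A w y) w x = _
    rw [fderiv_clm_apply (fd_diff h w) (differentiableAt_const y)]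
    simp
  rw [h1, h1]
  have h2 : IsSymmSndFDerivAt ℂ A w :=
    (cd_of_diff h 2).contDiffAt.isSymmSndFDerivAt (by simp)
  exact h2 e e'

theorem dd_mul {A B : (ι → ℂ) → ℂ} (hA : Differentiable ℂ A) (hB : Differentiable ℂ B)
    (e : ι → ℂ) : dd e (fun w => A w * B w) = fun w => dd e A w * B w + A w * dd e B w := by
  funext w
  change fderiv ℂ (fun w => A w * B w) w e = _
  rw [fderiv_fun_mul (hA w) (hB w)]
  simp only [dd, ContinuousLinearMap.add_apply, ContinuousLinearMap.smul_apply, smul_eq_mul]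
  ring

theorem dd_sub {A B : (ι → ℂ) → ℂ} (hA : Differentiable ℂ A) (hB : Differentiable ℂ B)
    (e : ι → ℂ) : dd e (fun w => A w - B w) = fun w => dd e A w - dd e B w := by
  funext w
  change fderiv ℂ (fun w => A w - B w) w e = _
  rw [fderiv_fun_sub (hA w) (hB w)]
  rfl

theorem dd_add {A B : (ι → ℂ) → ℂ} (hA : Differentiable ℂ A) (hB : Differentiable ℂ B)
    (e : ι → ℂ) : dd e (fun w => A w + B w) = fun w => dd e A w + dd e B w := by
  funext w
  change fderiv ℂ (fun w => A w + B w) w e = _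
  rw [fderiv_fun_add (hA w) (hB w)]
  rfl

theorem dd_smul {A : (ι → ℂ) → ℂ} (hA : Differentiable ℂ A) (c : ℂ)
    (e : ι → ℂ) : dd e (fun w => c * A w) = fun w => c * dd e A w := by
  funext w
  change fderiv ℂ (fun w => c * A w) w e = _
  rw [fderiv_const_mul (hA w)]
  rfl

theorem dd_shift {A : (ι → ℂ) → ℂ} (v e : ι → ℂ) :
    dd e (fun w => A (w + v)) = fun w => dd e A (w + v) := by
  funext w
  change fderiv ℂ (fun w => A (w + v)) w e = _
  rw [fderiv_comp_add_right]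
  rfl

theorem dd_lin (L : (ι → ℂ) →ₗ[ℂ] ℂ) (e : ι → ℂ) : dd e (fun w => L w) = fun _ => L e := by
  funext w
  change fderiv ℂ (fun w => L w) w e = _
  have h : (fun w => L w) = ⇑(LinearMap.toContinuousLinearMap L) := rfl
  rw [h, ContinuousLinearMap.fderiv]
  rfl

/-- `Eb E e` as a linear map -/
def EbL (E : ι → ι → ℚ) (e : ι → ℂ) : (ι → ℂ) →ₗ[ℂ] ℂ where
  toFun w := Eb E e w
  map_add' a b := by
    simp only [Eb, Pi.add_apply, mul_add, Finset.sum_add_distrib]
  map_smul' c a := by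
    simp only [Eb, Pi.smul_apply, smul_eq_mul, RingHom.id_apply, Finset.mul_sum]
    exact Finset.sum_congr rfl fun i _ => Finset.sum_congr rfl fun j _ => by ring

theorem Eb_diff (E : ι → ι → ℚ) (e : ι → ℂ) : Differentiable ℂ (fun w => Eb E e w) :=
  (LinearMap.toContinuousLinearMap (EbL E e)).differentiable

theorem dd_Eb (E : ι → ι → ℚ) (e' e : ι → ℂ) : dd e (fun w => Eb E e' w) = fun _ => Eb E e' e :=
  dd_lin (EbL E e') e

/-- derivative of `c * exp (c' E(e', w))` -/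
theorem dd_exp (E : ι → ι → ℚ) (c : ℂ) (e' e : ι → ℂ) :
    dd e (fun w => exp (c * Eb E e' w)) = fun w => c * Eb E e' e * exp (c * Eb E e' w) := by
  funext w
  change fderiv ℂ (fun w => exp (c * Eb E e' w)) w e = _
  have h1 : DifferentiableAt ℂ (fun w => c * Eb E e' w) w := ((Eb_diff E e') w).const_mul c
  rw [h1.hasFDerivAt.cexp.fderiv, fderiv_const_mul ((Eb_diff E e') w)]
  have h2 := congrFun (dd_Eb E e' e) w
  simp only [dd] at h2
  simp only [ContinuousLinearMap.smul_apply, smul_eq_mul, h2]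
  ring

theorem exp_diff (E : ι → ι → ℚ) (c : ℂ) (e' : ι → ℂ) :
    Differentiable ℂ (fun w => exp (c * Eb E e' w)) := ((Eb_diff E e').const_mul c).cexp

theorem Eb_smulE (n : ℕ) (E : ι → ι → ℚ) (w w' : ι → ℂ) : Eb (n • E) w w' = n * Eb E w w' := by
  simp only [Eb, Pi.smul_apply, nsmul_eq_mul, Rat.cast_mul, Rat.cast_natCast, Finset.mul_sum]
  exact Finset.sum_congr rfl fun i _ => Finset.sum_congr rfl fun j _ => by ring

theorem Eb_zero_right (E : ι → ι → ℚ) (w : ι → ℂ) : Eb E w 0 = 0 := by simp [Eb]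

theorem Eb_smul_left (E : ι → ι → ℚ) (c : ℂ) (w w' : ι → ℂ) : Eb E (c • w) w' = c * Eb E w w' := by
  simp only [Eb, Pi.smul_apply, smul_eq_mul, Finset.mul_sum]
  exact Finset.sum_congr rfl fun i _ => Finset.sum_congr rfl fun j _ => by ring

/-- a common multiple of the periods -/
theorem per_mul {E : ι → ι → ℚ} {F : (ι → ℂ) → ℂ} {k : ℕ} (hk : ∀ (l : ι → ℤ) (w : ι → ℂ),
    F (w + (k : ℂ) • zv l) = exp (-(Real.pi * I * k * Eb E (zv l) w)) * F w) (n : ℕ)
    (l : ι → ℤ) (w : ι → ℂ) : F (w + ((k * n : ℕ) : ℂ) • zv l) =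
      exp (-(Real.pi * I * (k * n : ℕ) * Eb E (zv l) w)) * F w := by
  have e1 : (zv fun i => (n : ℤ) * l i) = (n : ℂ) • zv l := by
    funext i
    simp [zv]
  have h := hk (fun i => (n : ℤ) * l i) w
  rw [e1, smul_smul, Eb_smul_left] at h
  rw [Nat.cast_mul, h]
  congr 2
  ring

/-- the Wronskian of weights `m` and `1` -/
def wr (m : ℕ) (e : ι → ℂ) (A B : (ι → ℂ) → ℂ) : (ι → ℂ) → ℂ :=
  fun w => B w * dd e A w - m * (A w * dd e B w)

theorem dd_hol {E : ι → ι → ℚ} {N : Submodule ℂ (ι → ℂ)} {A : (ι → ℂ) → ℂ} (h : AT E N A)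
    {e : ι → ℂ} (he : e ∈ N) : dd e A = fun w => Real.pi * I * Eb E e w * A w := by
  funext w
  exact h.hol e he w

theorem dd_hol2 {E : ι → ι → ℚ} {N : Submodule ℂ (ι → ℂ)} {A : (ι → ℂ) → ℂ} (h : AT E N A)
    {e : ι → ℂ} (he : e ∈ N) (e' : ι → ℂ) : dd e (dd e' A) =
      fun w => Real.pi * I * (Eb E e e' * A w + Eb E e w * dd e' A w) := by
  rw [dd_comm h.diff, dd_hol h he]
  have e1 : (fun w => Real.pi * I * Eb E e w * A w) = fun w => (Real.pi * I) * (Eb E e w * A w) := by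
    funext w
    ring
  rw [e1, dd_smul (dfm (Eb_diff E e) h.diff), dd_mul (Eb_diff E e) h.diff, dd_Eb]

theorem dd_hol3 {E : ι → ι → ℚ} {N : Submodule ℂ (ι → ℂ)} {A : (ι → ℂ) → ℂ} (h : AT E N A)
    {e : ι → ℂ} (he : e ∈ N) (e1 e2 : ι → ℂ) : dd e (dd e1 (dd e2 A)) =
      fun w => Real.pi * I * (Eb E e e2 * dd e1 A w + (Eb E e e1 * dd e2 A w +
        Eb E e w * dd e1 (dd e2 A) w)) := by
  rw [dd_comm (dd_diff h.diff e2), dd_hol2 h he e2]
  rw [dd_smul (dfa (dfc h.diff _) (dfm (Eb_diff E e) (dd_diff h.diff e2))),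
    dd_add (dfc h.diff _) (dfm (Eb_diff E e) (dd_diff h.diff e2)),
    dd_smul h.diff, dd_mul (Eb_diff E e) (dd_diff h.diff e2), dd_Eb]

/-- quasi-periodicity of the derivatives -/
theorem dd_per {E : ι → ι → ℚ} {F : (ι → ℂ) → ℂ} (hF : Differentiable ℂ F) {c : ℂ} {l v : ι → ℂ}
    (h : ∀ w, F (w + v) = exp (c * Eb E l w) * F w) (e : ι → ℂ) (w : ι → ℂ) :
    dd e F (w + v) = exp (c * Eb E l w) * (c * Eb E l e * F w + dd e F w) := by
  have h1 : dd e (fun w => F (w + v)) = dd e (fun w => exp (c * Eb E l w) * F w) := by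
    congr 1
    funext w
    exact h w
  rw [dd_shift, dd_mul (exp_diff E c l) hF, dd_exp] at h1
  rw [congrFun h1 w]
  ring

theorem dd_per2 {E : ι → ι → ℚ} {F : (ι → ℂ) → ℂ} (hF : Differentiable ℂ F) {c : ℂ} {l v : ι → ℂ}
    (h : ∀ w, F (w + v) = exp (c * Eb E l w) * F w) (e e' : ι → ℂ) (w : ι → ℂ) :
    dd e (dd e' F) (w + v) = exp (c * Eb E l w) * (c * Eb E l e * (c * Eb E l e') * F w +
      c * Eb E l e' * dd e F w + c * Eb E l e * dd e' F w + dd e (dd e' F) w) := by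
  have h1 : dd e (fun w => dd e' F (w + v)) =
      dd e (fun w => exp (c * Eb E l w) * (c * Eb E l e' * F w + dd e' F w)) := by
    congr 1
    funext w
    exact dd_per hF h e' w
  rw [dd_shift, dd_mul (exp_diff E c l) (dfa (dfc hF _) (dd_diff hF e')), dd_exp,
    dd_add (dfc hF _) (dd_diff hF e'), dd_smul hF] at h1
  rw [congrFun h1 w]
  ring

theorem nab_eq {E : ι → ι → ℚ} (e : ι → ℂ) (F : (ι → ℂ) → ℂ) (w : ι → ℂ) :
    nab E e F w = dd e F w - Real.pi * I * Eb E e w * F w := rfl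

/-- the Wronskian is a theta function with algebraic values -/
theorem wr_alg {E : ι → ι → ℚ} {N : Submodule ℂ (ι → ℂ)} {A B : (ι → ℂ) → ℂ} {m : ℕ}
    (hA : AlgT (m • E) N A) (hB : AlgT E N B) {e : ι → ℂ} (he : e ∈ Valg E N)
    (he' : e ∈ Valg (m • E) N) : AlgT ((m + 1) • E) N (wr m e A B) := by
  refine ⟨⟨?_, ?_, ?_⟩, ?_⟩
  · exact (hB.diff.mul (dd_diff hA.diff e)).sub ((hA.diff.mul (dd_diff hB.diff e)).const_mul _)
  · intro e1 he1 w
    change dd e1 (wr m e A B) w = _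
    have h1 : wr m e A B = fun w => B w * dd e A w - (m : ℂ) * (A w * dd e B w) := rfl
    rw [h1, dd_sub (dfm hB.diff (dd_diff hA.diff e))
      (dfc (dfm hA.diff (dd_diff hB.diff e)) _),
      dd_smul (dfm hA.diff (dd_diff hB.diff e)), dd_mul hB.diff (dd_diff hA.diff e),
      dd_mul hA.diff (dd_diff hB.diff e), dd_hol2 hA.toAT he1, dd_hol2 hB.toAT he1,
      dd_hol hA.toAT he1, dd_hol hB.toAT he1]
    simp only [Eb_smulE]
    push_cast
    ring
  · obtain ⟨k, hk, h1⟩ := hA.per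
    obtain ⟨k', hk', h2⟩ := hB.per
    refine ⟨k * k', Nat.mul_pos hk hk', fun l w => ?_⟩
    have h3 : ∀ w, A (w + ((k * k' : ℕ) : ℂ) • zv l) =
        exp (-(Real.pi * I * (k * k' : ℕ) * m) * Eb E (zv l) w) * A w := by
      intro w
      rw [per_mul h1, Eb_smulE]
      congr 2
      ring
    have h4 : ∀ w, B (w + ((k * k' : ℕ) : ℂ) • zv l) =
        exp (-(Real.pi * I * (k * k' : ℕ)) * Eb E (zv l) w) * B w := by
      intro w
      have h5 := per_mul h2 k l w
      rw [mul_comm k' k] at h5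
      rw [h5]
      congr 2
      ring
    change B _ * dd e A _ - m * (A _ * dd e B _) = _ * (B w * dd e A w - m * (A w * dd e B w))
    rw [h3, h4, dd_per hA.diff h3, dd_per hB.diff h4, Eb_smulE]
    have e1 : exp (-(Real.pi * I * (k * k' : ℕ) * ((m + 1 : ℕ) * Eb E (zv l) w))) =
        exp (-(Real.pi * I * (k * k' : ℕ) * m) * Eb E (zv l) w) *
        exp (-(Real.pi * I * (k * k' : ℕ)) * Eb E (zv l) w) := by
      rw [← exp_add]
      congr 1
      push_cast
      ring
    rw [e1]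
    ring
  · intro t
    have h1 := he'.2 A hA t
    have h2 := he.2 B hB t
    have h3 := hA.val t
    have h4 := hB.val t
    have h5 : wr m e A B (rv t) = B (rv t) * nab (m • E) e A (rv t) -
        m * (A (rv t) * nab E e B (rv t)) := by
      rw [nab_eq, nab_eq, Eb_smulE]
      change B (rv t) * dd e A (rv t) - m * (A (rv t) * dd e B (rv t)) = _
      ring
    rw [h5]
    exact (h4.mul h1).sub ((isAlgebraic_natCast m).mul (h3.mul h2))

/-- `F² D_e D_e' log F` -/
def hir (e e' : ι → ℂ) (F : (ι → ℂ) → ℂ) : (ι → ℂ) → ℂ :=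
  fun w => F w * dd e (dd e' F) w - dd e F w * dd e' F w

theorem hir_AT {E : ι → ι → ℚ} {N : Submodule ℂ (ι → ℂ)} {F : (ι → ℂ) → ℂ} (hF : AT E N F)
    (e e' : ι → ℂ) : AT (2 • E) N (hir e e' F) := by
  have d1 := dd_diff hF.diff e
  have d2 := dd_diff hF.diff e'
  have d3 := dd_diff d2 e
  refine ⟨(hF.diff.mul d3).sub (d1.mul d2), ?_, ?_⟩
  · intro e1 he1 w
    change dd e1 (hir e e' F) w = _
    have h1 : hir e e' F = fun w => F w * dd e (dd e' F) w - dd e F w * dd e' F w := rfl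
    rw [h1, dd_sub (dfm hF.diff d3) (dfm d1 d2), dd_mul hF.diff d3, dd_mul d1 d2,
      dd_hol3 hF he1, dd_hol2 hF he1, dd_hol2 hF he1, dd_hol hF he1]
    simp only [Eb_smulE]
    push_cast
    ring
  · obtain ⟨k, hk, h1⟩ := hF.per
    refine ⟨k, hk, fun l w => ?_⟩
    have h2 : ∀ w, F (w + (k : ℂ) • zv l) = exp (-(Real.pi * I * k) * Eb E (zv l) w) * F w := by
      intro w
      rw [h1]
      congr 2
      ring
    change F _ * dd e (dd e' F) _ - dd e F _ * dd e' F _ =
      _ * (F w * dd e (dd e' F) w - dd e F w * dd e' F w)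
    rw [h2, dd_per hF.diff h2, dd_per hF.diff h2, dd_per2 hF.diff h2, Eb_smulE]
    have e1 : exp (-(Real.pi * I * k * ((2 : ℕ) * Eb E (zv l) w))) =
        exp (-(Real.pi * I * k) * Eb E (zv l) w) * exp (-(Real.pi * I * k) * Eb E (zv l) w) := by
      rw [← exp_add]
      congr 1
      push_cast
      ring
    rw [e1]
    ring

end

end Pool.Agent.Helper34.SH
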