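import Pool.Agent.Helper34.SH.Ta
import Pool.Agent.Helper14.SH.Eu

/-!
PROJECT ALLQ (MP_274814_nt), block K_GT: second logarithmic derivatives; the class of functions closed
under the algebraic derivations.
-/

set_option autoImplicit false

namespace Pool.Agent.Helper34.SH

open Finset Complex Topology Pool.Agent.Helper49.SH

noncomputable section

variable {ι : Type} [Fintype ι] {E : ι → ι → ℚ} {N : Submodule ℂ (ι → ℂ)}

theorem rv_zero : rv (0 : ι → ℚ) = 0 := by
  funext i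
  simp [rv]

theorem alg_mul {m n : ℕ} {A B : (ι → ℂ) → ℂ} (hA : AlgT (m • E) N A) (hB : AlgT (n • E) N B) :
    AlgT ((m + n) • E) N (fun w => A w * B w) := by
  refine ⟨⟨hA.diff.mul hB.diff, ?_, ?_⟩, fun t => (hA.val t).mul (hB.val t)⟩
  · intro e he w
    change dd e (fun w => A w * B w) w = _
    rw [dd_mul hA.diff hB.diff, dd_hol hA.toAT he, dd_hol hB.toAT he]
    simp only [Eb_smulE]
    push_cast
    ring
  · obtain ⟨k, hk, h1⟩ := hA.per
    obtain ⟨k', hk', h2⟩ := hB.per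
    refine ⟨k * k', Nat.mul_pos hk hk', fun l w => ?_⟩
    have h3 := per_mul h1 k' l w
    have h4 := per_mul h2 k l w
    rw [mul_comm k' k] at h4
    rw [h3, h4]
    simp only [Eb_smulE]
    have e1 : exp (-(Real.pi * I * (k * k' : ℕ) * (((m + n : ℕ) : ℂ) * Eb E (zv l) w))) =
        exp (-(Real.pi * I * (k * k' : ℕ) * (m * Eb E (zv l) w))) *
        exp (-(Real.pi * I * (k * k' : ℕ) * (n * Eb E (zv l) w))) := by
      rw [← exp_add]
      congr 1
      push_cast
      ring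
    rw [e1]
    ring

theorem pw_alg {F : (ι → ℂ) → ℂ} (hF : AlgT E N F) (n : ℕ) :
    AlgT ((n + 1) • E) N (fun w => F w ^ (n + 1)) := by
  induction n with
  | zero =>
    have h : AlgT (1 • E) N F := by rwa [one_smul]
    simpa using h
  | succ n ih =>
    have h : AlgT (1 • E) N F := by rwa [one_smul]
    have h1 := alg_mul ih h
    have h2 : (fun w => F w ^ (n + 1 + 1)) = fun w => F w ^ (n + 1) * F w := by
      funext w
      rw [pow_succ]
    rw [h2]
    exact h1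

theorem alg_d {F : (ι → ℂ) → ℂ} (hF : AlgT E N F) {e : ι → ℂ} (he : e ∈ Valg E N) :
    IsAlgebraic ℚ (dd e F 0) := by
  have h := he.2 F hF 0
  rw [nab_eq, rv_zero, Eb_zero_right] at h
  simpa using h

/-- the second derivatives of two theta functions -/
theorem key {F G : (ι → ℂ) → ℂ} (hF : AlgT E N F) (hG : AlgT E N G) {e e' : ι → ℂ}
    (he : e ∈ Valg E N) (he' : e' ∈ Valg E N) (h2 : Valg (2 • E) N = Valg E N) :
    IsAlgebraic ℚ (F 0 * dd e (dd e' G) 0 - G 0 * dd e (dd e' F) 0) := by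
  have hG1 : AlgT (1 • E) N G := by rwa [one_smul]
  have hW := wr_alg hG1 hF he' (by rwa [one_smul])
  have h1 := alg_d hW (e := e) (by rw [← h2] at he; exact he)
  have e1 : wr 1 e' G F = fun w => F w * dd e' G w - G w * dd e' F w := by
    funext w
    simp [wr]
  rw [e1, dd_sub (dfm hF.diff (dd_diff hG.diff e')) (dfm hG.diff (dd_diff hF.diff e')),
    dd_mul hF.diff (dd_diff hG.diff e'), dd_mul hG.diff (dd_diff hF.diff e')] at h1
  have h3 := ((h1.sub ((alg_d hF he).mul (alg_d hG he'))).add ((alg_d hG he).mul (alg_d hF he')))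
  have e2 : F 0 * dd e (dd e' G) 0 - G 0 * dd e (dd e' F) 0 =
      (dd e F 0 * dd e' G 0 + F 0 * dd e (dd e' G) 0 -
        (dd e G 0 * dd e' F 0 + G 0 * dd e (dd e' F) 0)) - dd e F 0 * dd e' G 0 +
        dd e G 0 * dd e' F 0 := by ring
  rw [e2]
  exact h3

theorem dd_Ut {F : (ι → ℂ) → ℂ} (hF : Differentiable ℂ F) (t : ι → ℚ) (e : ι → ℂ) :
    dd e (Ut E t F) = fun w => exp (Real.pi * I * Eb E (rv t) w) *
      (Real.pi * I * Eb E (rv t) e * F (w + rv t) + dd e F (w + rv t)) := by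
  have hs : Differentiable ℂ (fun w => F (w + rv t)) := hF.comp (differentiable_id.add_const _)
  have e1 : Ut E t F = fun w => exp (Real.pi * I * Eb E (rv t) w) * F (w + rv t) := rfl
  rw [e1, dd_mul (exp_diff E (Real.pi * I) (rv t)) hs, dd_exp, dd_shift]
  funext w
  ring

theorem dd_Ut2 {F : (ι → ℂ) → ℂ} (hF : Differentiable ℂ F) (t : ι → ℚ) (e e' : ι → ℂ) :
    dd e (dd e' (Ut E t F)) 0 = Real.pi * I * Eb E (rv t) e * (Real.pi * I * Eb E (rv t) e') *
      F (rv t) + Real.pi * I * Eb E (rv t) e' * dd e F (rv t) +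
      Real.pi * I * Eb E (rv t) e * dd e' F (rv t) + dd e (dd e' F) (rv t) := by
  have hs : Differentiable ℂ (fun w => F (w + rv t)) := hF.comp (differentiable_id.add_const _)
  have hs' : Differentiable ℂ (fun w => dd e' F (w + rv t)) :=
    (dd_diff hF e').comp (differentiable_id.add_const _)
  rw [dd_Ut hF, dd_mul (exp_diff E (Real.pi * I) (rv t)) (dfa (dfc hs _) hs'), dd_exp,
    dd_add (dfc hs _) hs', dd_smul hs, dd_shift, dd_shift]
  simp only [Eb_zero_right, mul_zero, exp_zero, zero_add]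
  ring

theorem hir_Ut {F : (ι → ℂ) → ℂ} (hF : Differentiable ℂ F) (t : ι → ℚ) (e e' : ι → ℂ) :
    hir e e' F (rv t) = Ut E t F 0 * dd e (dd e' (Ut E t F)) 0 -
      dd e (Ut E t F) 0 * dd e' (Ut E t F) 0 := by
  rw [dd_Ut2 hF, dd_Ut hF, dd_Ut hF]
  have e1 : Ut E t F 0 = F (rv t) := by simp [Ut, Eb_zero_right]
  rw [e1]
  simp only [hir, Eb_zero_right, mul_zero, exp_zero, zero_add]
  ring

theorem hir_alg (hE : ∀ i j, E i j = -E j i) {F : (ι → ℂ) → ℂ} (hF : AlgT E N F) (h0 : F 0 = 1)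
    {e e' : ι → ℂ} (he : e ∈ Valg E N) (he' : e' ∈ Valg E N) (h2 : Valg (2 • E) N = Valg E N)
    (hz : IsAlgebraic ℚ (dd e (dd e' F) 0)) : AlgT (2 • E) N (hir e e' F) := by
  refine ⟨hir_AT hF.toAT e e', fun t => ?_⟩
  have hG : AlgT E N (Ut E t F) := Pool.Agent.Helper14.SH.AlgT_Ut hE hF t
  have h3 := key hF hG he he' h2
  rw [h0, one_mul] at h3
  have hG0 : IsAlgebraic ℚ (Ut E t F 0) := by
    have h4 := hG.val 0
    rwa [rv_zero] at h4
  have h4 : IsAlgebraic ℚ (dd e (dd e' (Ut E t F)) 0) := by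
    have h5 := h3.add (hG0.mul hz)
    simpa using h5
  rw [hir_Ut (E := E) hF.diff t]
  exact (hG0.mul h4).sub ((alg_d hG he).mul (alg_d hG he'))

theorem mv_diff (M : ι → ι → ℚ) : Differentiable ℂ (fun w : ι → ℂ => mv M w) :=
  (LinearMap.toContinuousLinearMap (mvL M)).differentiable

theorem dd_mv {F : (ι → ℂ) → ℂ} (hF : Differentiable ℂ F) (M : ι → ι → ℚ) (e : ι → ℂ) :
    dd e (fun w => F (mv M w)) = fun w => dd (mv M e) F (mv M w) := by
  funext w
  change fderiv ℂ (fun w => F (mv M w)) w e = _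
  have h1 : HasFDerivAt (fun w : ι → ℂ => mv M w) (LinearMap.toContinuousLinearMap (mvL M)) w :=
    (LinearMap.toContinuousLinearMap (mvL M)).hasFDerivAt
  have h2 := (hF (mv M w)).hasFDerivAt.comp w h1
  have h3 : fderiv ℂ (fun w => F (mv M w)) w =
      (fderiv ℂ F (mv M w)).comp (LinearMap.toContinuousLinearMap (mvL M)) := h2.fderiv
  rw [h3]
  rfl

theorem dd_smul_dir {F : (ι → ℂ) → ℂ} (c : ℂ) (e : ι → ℂ) :
    dd (c • e) F = fun w => c * dd e F w := by
  funext w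
  simp [dd]

/-- the trick with a rational symmetry -/
theorem second_alg {F : (ι → ℂ) → ℂ} (hF : AlgT E N F) (h0 : F 0 = 1) {e e' : ι → ℂ}
    (he : e ∈ Valg E N) (he' : e' ∈ Valg E N) (h2 : Valg (2 • E) N = Valg E N)
    (M : ι → ι → ℚ) (hM : AlgT E N (fun w => F (mv M w))) {a a' : ℂ} (h1 : mv M e = a • e)
    (h1' : mv M e' = a' • e') (ha : IsAlgebraic ℚ a) (ha' : IsAlgebraic ℚ a') (hne : a * a' ≠ 1) :
    IsAlgebraic ℚ (dd e (dd e' F) 0) := by
  have h3 := key hF hM he he' h2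
  have hm0 : mv M (0 : ι → ℂ) = 0 := by
    funext i
    simp [mv]
  have e1 : dd e (dd e' fun w => F (mv M w)) 0 = a * a' * dd e (dd e' F) 0 := by
    have e2 : dd e' (fun w => F (mv M w)) = fun w => a' * dd e' F (mv M w) := by
      rw [dd_mv hF.diff, h1', dd_smul_dir]
    have hd : Differentiable ℂ (fun w => dd e' F (mv M w)) := (dd_diff hF.diff e').comp (mv_diff M)
    rw [e2, dd_smul hd, dd_mv (dd_diff hF.diff e'), h1, dd_smul_dir]
    simp only [hm0]
    ring
  simp only [hm0] at h3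
  rw [e1, h0] at h3
  have h4 : (a * a' - 1) ≠ 0 := sub_ne_zero.2 hne
  have h5 : dd e (dd e' F) 0 = (a * a' - 1)⁻¹ *
      (1 * (a * a' * dd e (dd e' F) 0) - 1 * dd e (dd e' F) 0) := by
    field_simp
  rw [h5]
  exact (((ha.mul ha').sub isAlgebraic_one).inv).mul h3

/-! ### the class -/

/-- functions defined where `F` does not vanish -/
inductive Cl {σ : Type} (E : ι → ι → ℚ) (N : Submodule ℂ (ι → ℂ)) (F : (ι → ℂ) → ℂ)
    (e : σ → ι → ℂ) : ((ι → ℂ) → ℂ) → Prop
  | base (n : ℕ) (A : (ι → ℂ) → ℂ) (h : AlgT ((n + 1) • E) N A) :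
      Cl E N F e (fun w => A w / F w ^ (n + 1))
  | psi (u : σ) : Cl E N F e (fun w => dd (e u) F w / F w)
  | add (f g : (ι → ℂ) → ℂ) (hf : Cl E N F e f) (hg : Cl E N F e g) :
      Cl E N F e (fun w => f w + g w)
  | mul (f g : (ι → ℂ) → ℂ) (hf : Cl E N F e f) (hg : Cl E N F e g) :
      Cl E N F e (fun w => f w * g w)

section

variable {σ : Type} {F : (ι → ℂ) → ℂ} {e : σ → ι → ℂ}

theorem quot_diff {A B : (ι → ℂ) → ℂ} {w : ι → ℂ} (hA : DifferentiableAt ℂ A w)
    (hB : DifferentiableAt ℂ B w) (h : B w ≠ 0) : DifferentiableAt ℂ (fun w => A w / B w) w := by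
  simp only [div_eq_mul_inv]
  exact hA.fun_mul (hB.fun_inv h)

theorem quot_der {A B : (ι → ℂ) → ℂ} {w : ι → ℂ} (hA : Differentiable ℂ A)
    (hB : Differentiable ℂ B) (h : B w ≠ 0) (e : ι → ℂ) :
    fderiv ℂ (fun w => A w / B w) w e = (B w * dd e A w - A w * dd e B w) / (B w * B w) := by
  have h1 := quot_diff (hA w) (hB w) h
  have h2 : A =ᶠ[𝓝 w] fun w => (A w / B w) * B w := by
    filter_upwards [hB.continuous.continuousAt.eventually_ne h] with x hx
    exact (div_mul_cancel₀ _ hx).symm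
  have h3 : fderiv ℂ A w e = fderiv ℂ (fun w => (A w / B w) * B w) w e := by
    rw [h2.fderiv_eq]
  rw [fderiv_fun_mul h1 (hB w)] at h3
  simp only [ContinuousLinearMap.add_apply, ContinuousLinearMap.smul_apply, smul_eq_mul] at h3
  have h4 : B w * fderiv ℂ (fun w => A w / B w) w e = dd e A w - A w / B w * dd e B w := by
    simp only [dd]
    rw [h3]
    ring
  have h5 : fderiv ℂ (fun w => A w / B w) w e = (dd e A w - A w / B w * dd e B w) / B w := by
    rw [← h4]
    field_simp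
  rw [h5]
  field_simp

theorem dd_pow {B : (ι → ℂ) → ℂ} (hB : Differentiable ℂ B) (n : ℕ) (e w : ι → ℂ) :
    dd e (fun w => B w ^ (n + 1)) w = (n + 1 : ℕ) * (B w ^ n * dd e B w) := by
  change fderiv ℂ (fun w => B w ^ (n + 1)) w e = _
  rw [((hB w).hasFDerivAt.pow (n + 1)).fderiv]
  simp [dd, mul_assoc]

theorem Cl_diff (hF : AlgT E N F) {ψ : (ι → ℂ) → ℂ} (h : Cl E N F e ψ) :
    ∀ w, F w ≠ 0 → DifferentiableAt ℂ ψ w := by
  induction h with
  | base n A h =>
    intro w hw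
    exact quot_diff (h.diff w) ((hF.diff w).pow _) (pow_ne_zero _ hw)
  | psi u =>
    intro w hw
    exact quot_diff (dd_diff hF.diff (e u) w) (hF.diff w) hw
  | add f g _ _ hf hg =>
    intro w hw
    exact (hf w hw).add (hg w hw)
  | mul f g _ _ hf hg =>
    intro w hw
    exact (hf w hw).mul (hg w hw)

theorem Cl_zero (hF : AlgT E N F) (h0 : F 0 = 1) (he : ∀ u, e u ∈ Valg E N) {ψ : (ι → ℂ) → ℂ}
    (h : Cl E N F e ψ) : IsAlgebraic ℚ (ψ 0) := by
  induction h with
  | base n A h =>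
    have h1 := h.val 0
    rw [rv_zero] at h1
    simpa [h0] using h1
  | psi u =>
    have h1 := alg_d hF (he u)
    simpa [h0] using h1
  | add f g _ _ hf hg => exact hf.add hg
  | mul f g _ _ hf hg => exact hf.mul hg

theorem Cl_der (hF : AlgT E N F) (he : ∀ u, e u ∈ Valg E N)
    (hV : ∀ n : ℕ, Valg ((n + 1) • E) N = Valg E N)
    (hh : ∀ u v, AlgT (2 • E) N (hir (e u) (e v) F)) (u : σ) {ψ : (ι → ℂ) → ℂ}
    (h : Cl E N F e ψ) :
    ∃ ψ', Cl E N F e ψ' ∧ ∀ w, F w ≠ 0 → fderiv ℂ ψ w (e u) = ψ' w := by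
  induction h with
  | base n A h =>
    have h1 := wr_alg h hF (he u) (by rw [hV]; exact he u)
    refine ⟨_, Cl.base (n + 1) _ h1, fun w hw => ?_⟩
    have hp : F w ^ (n + 1) ≠ 0 := pow_ne_zero _ hw
    have hd : Differentiable ℂ (fun w => F w ^ (n + 1)) := hF.diff.pow (n + 1)
    rw [quot_der h.diff hd hp, dd_pow hF.diff]
    simp only [wr]
    field_simp
    ring
  | psi v =>
    refine ⟨_, Cl.base 1 _ (hh u v), fun w hw => ?_⟩
    rw [quot_der (dd_diff hF.diff (e v)) hF.diff hw]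
    simp only [hir]
    congr 1
    · ring
    · ring
  | add f g hf' hg' hf hg =>
    obtain ⟨f', h1, h2⟩ := hf
    obtain ⟨g', h3, h4⟩ := hg
    refine ⟨_, Cl.add _ _ h1 h3, fun w hw => ?_⟩
    rw [fderiv_fun_add (Cl_diff hF hf' w hw) (Cl_diff hF hg' w hw)]
    rw [ContinuousLinearMap.add_apply, h2 w hw, h4 w hw]
  | mul f g hf' hg' hf hg =>
    obtain ⟨f', h1, h2⟩ := hf
    obtain ⟨g', h3, h4⟩ := hg
    refine ⟨_, Cl.add _ _ (Cl.mul _ _ h1 hg') (Cl.mul _ _ hf' h3), fun w hw => ?_⟩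
    rw [fderiv_fun_mul (Cl_diff hF hf' w hw) (Cl_diff hF hg' w hw)]
    rw [ContinuousLinearMap.add_apply, ContinuousLinearMap.smul_apply,
      ContinuousLinearMap.smul_apply, h2 w hw, h4 w hw, smul_eq_mul, smul_eq_mul]
    ring

end

/-! ### restriction to the span of the algebraic vectors -/

section

variable {σ : Type} [Fintype σ] [DecidableEq σ] {F : (ι → ℂ) → ℂ} {e : σ → ι → ℂ}

/-- the parametrisation of the span -/
def pz (e : σ → ι → ℂ) : (σ → ℂ) →L[ℂ] (ι → ℂ) :=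
  LinearMap.toContinuousLinearMap
    { toFun := fun z => ∑ u, z u • e u
      map_add' := fun a b => by simp [add_smul, Finset.sum_add_distrib]
      map_smul' := fun c a => by simp [Finset.smul_sum, mul_smul] }

omit [DecidableEq σ] in
theorem pz_apply (e : σ → ι → ℂ) (z : σ → ℂ) : pz e z = ∑ u, z u • e u := rfl

theorem pz_single (e : σ → ι → ℂ) (u : σ) : pz e (Pi.single u 1) = e u := by
  rw [pz_apply, Finset.sum_eq_single u]
  · simp
  · intro v _ hv
    simp [hv]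
  · intro h
    exact absurd (mem_univ u) h

/-- the functions with algebraic Taylor coefficients -/
def TT (E : ι → ι → ℚ) (N : Submodule ℂ (ι → ℂ)) (F : (ι → ℂ) → ℂ) (e : σ → ι → ℂ) :
    Set ((σ → ℂ) → ℂ) :=
  {g | Differentiable ℂ g ∧ ∃ ψ, Cl E N F e ψ ∧
    ∀ z, F (pz e z) ≠ 0 → g z = F (pz e z) * ψ (pz e z)}

omit [DecidableEq σ] in
theorem TT_mem (hF : AlgT E N F) : (fun z => F (pz e z)) ∈ TT E N F e := by
  have h1 : AlgT ((0 + 1) • E) N F := by
    rw [zero_add, one_smul]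
    exact hF
  refine ⟨hF.diff.comp (pz e).differentiable, _, Cl.base 0 F h1, fun z hz => ?_⟩
  rw [zero_add, pow_one, div_self hz, mul_one]

omit [DecidableEq σ] in
theorem TT_zero (hF : AlgT E N F) (h0 : F 0 = 1) (he : ∀ u, e u ∈ Valg E N)
    (g : (σ → ℂ) → ℂ) (hg : g ∈ TT E N F e) : IsAlgebraic ℚ (g 0) := by
  obtain ⟨-, ψ, h1, h2⟩ := hg
  have h3 := h2 0 (by rw [map_zero, h0]; exact one_ne_zero)
  rw [h3, map_zero, h0, one_mul]
  exact Cl_zero hF h0 he h1

theorem TT_der (hF : AlgT E N F) (he : ∀ u, e u ∈ Valg E N)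
    (hV : ∀ n : ℕ, Valg ((n + 1) • E) N = Valg E N)
    (hh : ∀ u v, AlgT (2 • E) N (hir (e u) (e v) F)) (g : (σ → ℂ) → ℂ) (hg : g ∈ TT E N F e)
    (u : σ) : (fun z => fderiv ℂ g z (Pi.single u 1)) ∈ TT E N F e := by
  obtain ⟨hd, ψ, h1, h2⟩ := hg
  obtain ⟨ψ', h3, h4⟩ := Cl_der hF he hV hh u h1
  refine ⟨dd_diff hd _, _, Cl.add _ _ (Cl.mul _ _ (Cl.psi u) h1) h3, fun z hz => ?_⟩
  have hev : g =ᶠ[𝓝 z] fun z => F (pz e z) * ψ (pz e z) := by
    have hc : Continuous fun z => F (pz e z) := hF.diff.continuous.comp (pz e).continuous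
    filter_upwards [hc.continuousAt.eventually_ne hz] with x hx
    exact h2 x hx
  change fderiv ℂ g z (Pi.single u 1) = _
  rw [hev.fderiv_eq]
  have hψ := Cl_diff hF h1 (pz e z) hz
  have hH : DifferentiableAt ℂ (fun w => F w * ψ w) (pz e z) := (hF.diff _).mul hψ
  have h5 : fderiv ℂ (fun z => F (pz e z) * ψ (pz e z)) z =
      (fderiv ℂ (fun w => F w * ψ w) (pz e z)).comp (pz e) :=
    (hH.hasFDerivAt.comp z (pz e).hasFDerivAt).fderiv
  rw [h5, ContinuousLinearMap.comp_apply, pz_single, fderiv_fun_mul (hF.diff _) hψ]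
  simp only [ContinuousLinearMap.add_apply, ContinuousLinearMap.smul_apply, smul_eq_mul]
  rw [h4 _ hz]
  simp only [dd]
  field_simp
  ring

end

end

end Pool.Agent.Helper34.SH
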