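import Pool.Agent.Helper34.SH.Tb
import Pool.Agent.Helper2.SH.Kc
import Pool.Agent.Helper34.SH.Fa
import Pool.Agent.Helper93.LH.Hf

/-!
PROJECT ALLQ (MP_274814_nt), block K_GT: assembly.
-/

set_option autoImplicit false

namespace Pool.Agent.Helper34.SH

open Finset Complex Topology Pool.Agent.Helper34.LT LTG Pool.Agent.Helper34.LU
open Pool.Agent.Helper49.SH Pool.Agent.Helper53.LE
open Pool.Agent.Helper13.LT (PS)
open Pool.Agent.Helper24.LU (KR)
open Pool.Agent.Helper2.SH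

noncomputable section

variable {ι : Type} [Fintype ι]

/-- an entire function which vanishes at the rational points is zero -/
theorem exists_rat_ne {F : (ι → ℂ) → ℂ} (hF : Differentiable ℂ F) (h : F ≠ 0) :
    ∃ t : ι → ℚ, F (rv t) ≠ 0 := by
  by_contra hcon
  push Not at hcon
  -- real points
  have h1 : ∀ x : ι → ℝ, F (fun i => (x i : ℂ)) = 0 := by
    intro x
    have hd : DenseRange (fun t : ι → ℚ => fun i => ((t i : ℝ))) :=
      DenseRange.piMap fun _ => Rat.denseRange_cast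
    have hc : Continuous fun x : ι → ℝ => F (fun i => (x i : ℂ)) :=
      hF.continuous.comp (continuous_pi fun i => Complex.continuous_ofReal.comp (continuous_apply i))
    have h2 : (fun x : ι → ℝ => F (fun i => (x i : ℂ))) = fun _ => 0 := by
      refine hd.equalizer hc continuous_const ?_
      funext t
      change F (fun i => (((t i : ℚ) : ℝ) : ℂ)) = 0
      have h3 : (fun i => (((t i : ℚ) : ℝ) : ℂ)) = rv t := by
        funext i
        simp [rv]
      rw [h3]
      exact hcon t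
    exact congrFun h2 x
  apply h
  funext w
  have hg : Differentiable ℂ fun t : ℂ => F (fun i => ((w i).re : ℂ) + t * ((w i).im : ℂ)) := by
    refine hF.comp (differentiable_pi.2 fun i => ?_)
    exact (differentiable_const _).add (differentiable_id.mul_const _)
  have h4 : (fun t : ℂ => F (fun i => ((w i).re : ℂ) + t * ((w i).im : ℂ))) = fun _ => 0 := by
    have h5 : AnalyticOnNhd ℂ (fun t : ℂ => F (fun i => ((w i).re : ℂ) + t * ((w i).im : ℂ)))
        Set.univ := fun z _ => hg.analyticAt z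
    have h6 : AnalyticOnNhd ℂ (fun _ : ℂ => (0 : ℂ)) Set.univ := fun z _ => analyticAt_const
    refine h5.eq_of_frequently_eq h6 (z₀ := 0) ?_
    have h7 : ∃ᶠ x : ℝ in 𝓝[≠] (0 : ℝ), True := by
      rw [Filter.frequently_true_iff_neBot]
      infer_instance
    have h8 : Filter.Tendsto (fun x : ℝ => (x : ℂ)) (𝓝[≠] 0) (𝓝[≠] 0) := by
      refine Filter.Tendsto.inf ?_ ?_
      · have := Complex.continuous_ofReal.tendsto 0
        simpa using this
      · rw [Filter.tendsto_principal_principal]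
        intro x hx
        simpa using hx
    refine h8.frequently (h7.mono fun x _ => ?_)
    have h9 := h1 fun i => (w i).re + x * (w i).im
    simpa using h9
  have h10 : F (fun i => ((w i).re : ℂ) + I * ((w i).im : ℂ)) = 0 := congrFun h4 I
  have h11 : (fun i => ((w i).re : ℂ) + I * ((w i).im : ℂ)) = w := by
    funext i
    rw [mul_comm]
    exact Complex.re_add_im (w i)
  rw [h11] at h10
  exact h10

theorem Pol_smul {E : ι → ι → ℚ} {N : Submodule ℂ (ι → ℂ)} (h : Pol E N) (n : ℕ) :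
    Pol ((n + 1) • E) N := by
  refine ⟨fun i j => ?_, fun e he e' he' => ?_, fun e he h0 => ?_, h.dim⟩
  · rw [Pi.smul_apply, Pi.smul_apply, Pi.smul_apply, Pi.smul_apply, h.alt i j, smul_neg]
  · rw [Eb_smulE, h.iso e he e' he', mul_zero]
  · have h1 := h.pos e he h0
    rw [Eb_smulE]
    have h2 : (-(I * (((n + 1 : ℕ) : ℂ) * Eb E e (cj e)))).re =
        (n + 1 : ℕ) * (-(I * Eb E e (cj e))).re := by
      have h3 : -(I * (((n + 1 : ℕ) : ℂ) * Eb E e (cj e))) =
          (((n + 1 : ℕ) : ℝ) : ℂ) * -(I * Eb E e (cj e)) := by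
        push_cast
        ring
      rw [h3, Complex.re_ofReal_mul]
    rw [h2]
    positivity

theorem Good_smul {E : ι → ι → ℚ} {N : Submodule ℂ (ι → ℂ)} (h : Good E N) (n : ℕ) :
    Good ((n + 1) • E) N := by
  obtain ⟨F, hF, h0⟩ := h
  refine ⟨_, pw_alg hF n, fun h1 => h0 ?_⟩
  funext w
  have h2 := congrFun h1 w
  exact pow_eq_zero_iff (n := n + 1) (by omega) |>.1 h2

/-- normalisation at the origin -/
theorem exists_norm {E : ι → ι → ℚ} {N : Submodule ℂ (ι → ℂ)} (hP : Pol E N) (h : Good E N) :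
    ∃ F, AlgT E N F ∧ F 0 = 1 := by
  obtain ⟨F, hF, h0⟩ := h
  obtain ⟨a, ha⟩ := exists_rat_ne hF.diff h0
  have h1 := Pool.Agent.Helper14.SH.AlgT_Ut hP.alt hF a
  refine ⟨fun w => (F (rv a))⁻¹ * Ut E a F w, ?_, ?_⟩
  · refine ⟨⟨h1.diff.const_mul _, fun e he w => ?_, ?_⟩, fun t => (hF.val a).inv.mul (h1.val t)⟩
    · change dd e (fun w => (F (rv a))⁻¹ * Ut E a F w) w = _
      rw [dd_smul h1.diff, dd_hol h1.toAT he]
      ring
    · obtain ⟨k, hk, h2⟩ := h1.per
      refine ⟨k, hk, fun l w => ?_⟩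
      rw [h2]
      ring
  · simp only [Ut, Eb_zero_right, mul_zero, exp_zero, one_mul, zero_add]
    exact inv_mul_cancel₀ ha

theorem Valg_smul {E : ι → ι → ℚ} {N : Submodule ℂ (ι → ℂ)}
    (hind : ∀ E' : ι → ι → ℚ, Pol E' N → Good E' N → Valg E' N = Valg E N) (hP : Pol E N)
    (h : Good E N) (n : ℕ) : Valg ((n + 1) • E) N = Valg E N :=
  hind _ (Pol_smul hP n) (Good_smul h n)

/-- all Taylor coefficients are algebraic -/
theorem tay_alg {E : ι → ι → ℚ} {N : Submodule ℂ (ι → ℂ)}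
    (hind : ∀ E' : ι → ι → ℚ, Pol E' N → Good E' N → Valg E' N = Valg E N) (hP : Pol E N)
    {F : (ι → ℂ) → ℂ} (hF : AlgT E N F) (h0 : F 0 = 1) {σ : Type} [Fintype σ] [DecidableEq σ]
    (htay : ∀ (T : Set ((σ → ℂ) → ℂ)), (∀ f ∈ T, Differentiable ℂ f) →
      (∀ f ∈ T, IsAlgebraic ℚ (f 0)) →
      (∀ f ∈ T, ∀ u, (fun z => fderiv ℂ f z (Pi.single u 1)) ∈ T) → ∀ f ∈ T,
      ∃ a : (σ → ℕ) → ℂ, PS a f ∧ ∀ m, IsAlgebraic ℚ (a m))
    (e : σ → ι → ℂ) (he : ∀ u, e u ∈ Valg E N) (M : ι → ι → ℚ)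
    (hM : AlgT E N (fun w => F (mv M w))) (a : σ → ℂ) (h1 : ∀ u, mv M (e u) = a u • e u)
    (ha : ∀ u, IsAlgebraic ℚ (a u)) (hne : ∀ u v, a u * a v ≠ 1) :
    ∃ b : (σ → ℕ) → ℂ, PS b (fun z => F (pz e z)) ∧ ∀ m, IsAlgebraic ℚ (b m) := by
  have hG : Good E N := ⟨F, hF, fun h => by
    rw [h] at h0
    exact zero_ne_one h0⟩
  have hV := Valg_smul hind hP hG
  have h2 : Valg (2 • E) N = Valg E N := hV 1
  have hh : ∀ u v, AlgT (2 • E) N (hir (e u) (e v) F) := fun u v =>
    hir_alg hP.alt hF h0 (he u) (he v) h2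
      (second_alg hF h0 (he u) (he v) h2 M hM (h1 u) (h1 v) (ha u) (ha v) (hne u v))
  exact htay (TT E N F e) (fun g hg => hg.1) (TT_zero hF h0 he) (TT_der hF he hV hh) _ (TT_mem hF)

end

end Pool.Agent.Helper34.SH
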