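import Pool.Agent.Helper34.SH.Tc
import Pool.Agent.Helper52.SH.Ca
import Pool.Agent.Helper53.SH.Qp
import Pool.Agent.Helper53.LX.Th

/-!
PROJECT ALLQ (MP_274814_nt), block K_GT: from good types to the machine.
-/

set_option autoImplicit false

namespace Pool.Agent.Helper34.SH

open Finset Complex Topology Pool.Agent.Helper34.LT LTG Pool.Agent.Helper34.LU
open Pool.Agent.Helper49.SH Pool.Agent.Helper53.LE
open Pool.Agent.Helper13.LT (PS)
open Pool.Agent.Helper24.LU (KR)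
open Pool.Agent.Helper53.SH (ep ep_spec zM em_zM pb_zM comap_zM)

noncomputable section

/-- Taylor coefficients (hypothesis) -/
def TayP : Prop := ∀ (σ : Type) [Fintype σ] [DecidableEq σ] (T : Set ((σ → ℂ) → ℂ)),
  (∀ f ∈ T, Differentiable ℂ f) → (∀ f ∈ T, IsAlgebraic ℚ (f 0)) →
  (∀ f ∈ T, ∀ u, (fun z => fderiv ℂ f z (Pi.single u 1)) ∈ T) → ∀ f ∈ T,
  ∃ a : (σ → ℕ) → ℂ, PS a f ∧ ∀ m, IsAlgebraic ℚ (a m)

theorem K_GT_of (htay : TayP) {q : ℕ} {s : Finset ℕ} {ρ : ℕ → ℂ}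
    (hind : ∀ E E' : Iq q → Iq q → ℚ, Pol E (Ns q s) → Pol E' (Ns q s) → Good E (Ns q s) →
      Good E' (Ns q s) → Valg E (Ns q s) = Valg E' (Ns q s)) (h : GoodS q s ρ)
    (hρ : ∀ u ∈ s, IsAlgebraic (KR q) (ρ u ^ 2 / Real.pi)) :
    ∃ (ρ' : ℕ → ℂ) (κ : s → ℂ) (c : Polynomial ℤ → ℂ) (τ : (s → ℂ) → ℂ), GT q s ρ' κ c τ := by
  obtain ⟨hs, ξ, E, hK, hP, hG, hV⟩ := h
  have h3 := hs.three
  have hq : q ≠ 0 := by omega
  have hρ0 : ∀ u ∈ s, ρ u ≠ 0 := fun u hu => (hV u hu).1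
  obtain ⟨F, hF, h0⟩ := exists_norm hP hG
  obtain ⟨k, κ, c, hk, -, hκ, hQ⟩ := Pool.Agent.Helper53.SH.qps hs hK hP hF.toAT ρ hρ0
  obtain ⟨e, hedef⟩ : ∃ e : s → Iq q → ℂ,
      e = fun u : s => (ρ (u : ℕ))⁻¹ • ep q (u : ℕ) := ⟨_, rfl⟩
  have he : ∀ u, e u ∈ Valg E (Ns q s) := by
    intro u
    rw [hedef]
    exact (hV u u.2).2 _ (ep_spec q (by omega) u)
  have hM : AlgT E (Ns q s) (fun w => F (mv (zM q) w)) := by
    have h1 := Pool.Agent.Helper52.SH.AlgT_pull hF (zM q)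
    rwa [pb_zM q hq ξ E hK, comap_zM q s hs] at h1
  have h1 : ∀ u, mv (zM q) (e u) = zt q ^ (u : ℕ) • e u := by
    intro u
    refine Pool.Agent.Helper53.SH.em_ext q (by omega) _ _ fun v hv => ?_
    have h2 : em q v (e u) = (ρ u)⁻¹ * (if v = u then 1 else 0) := by
      rw [hedef]
      change em q v ((ρ u)⁻¹ • ep q u) = _
      rw [Pool.Agent.Helper53.SH.em_smul, ep_spec q (by omega) u v hv]
    rw [em_zM q v hq (mem_UU.1 hv).2, Pool.Agent.Helper53.SH.em_smul, h2]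
    by_cases h4 : v = (u : ℕ)
    · rw [h4]
    · rw [if_neg h4]
      ring
  have hprim : IsPrimitiveRoot (zt q) q := Complex.isPrimitiveRoot_exp q hq
  have hne : ∀ u v : s, zt q ^ (u : ℕ) * zt q ^ (v : ℕ) ≠ 1 := by
    intro u v hcon
    rw [← pow_add] at hcon
    have h5 := (hprim.pow_eq_one_iff_dvd _).1 hcon
    obtain ⟨u1, u2, u3⟩ := hs.mem u u.2
    obtain ⟨v1, v2, v3⟩ := hs.mem v v.2
    obtain ⟨n, hn⟩ := h5
    have hn2 : n < 2 := by
      by_contra hc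
      have : q * 2 ≤ q * n := Nat.mul_le_mul_left q (by omega)
      omega
    have hn1 : n ≠ 0 := by
      rintro rfl
      omega
    have hn3 : n = 1 := by omega
    subst hn3
    have h7 := (hs.half u u1 u2 u3).1 u.2
    have h8 : q - (u : ℕ) = v := by omega
    rw [h8] at h7
    exact h7 v.2
  obtain ⟨b, hb, halg⟩ := tay_alg (fun E' hP' hG' => hind E' E hP' hP hG' hG) hP hF h0 (htay s) e he
    (zM q) hM (fun u => zt q ^ (u : ℕ)) h1
    (fun u => (Pool.Agent.Helper53.LX.zt_algebraic q hq).pow _) hne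
  have hfun : (fun z : s → ℂ => F (∑ u : s, (z u / ρ u) • ep q u)) = fun z => F (pz e z) := by
    funext z
    rw [pz_apply, hedef]
    congr 1
    refine Finset.sum_congr rfl fun u _ => ?_
    rw [smul_smul, div_eq_mul_inv]
  rw [hfun] at hQ
  have hk0 : (k : ℂ) ≠ 0 := by exact_mod_cast (by omega : k ≠ 0)
  have hρ' : ∀ u ∈ s, (k : ℂ) * ρ u ≠ 0 := fun u hu => mul_ne_zero hk0 (hρ0 u hu)
  have hd : Differentiable ℂ (fun z : s → ℂ => F (pz e z)) := hF.diff.comp (pz e).differentiable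
  have h00 : F (pz e 0) = 1 := by rw [map_zero, h0]
  obtain ⟨E0, hE0, hR⟩ := Pool.Agent.Helper93.LH.H_theta (ρ := fun u => (k : ℂ) * ρ u) hs hρ' _ hd
    h00 hQ b hb halg
  refine ⟨fun u => k * ρ u, κ, c, fun z => F (pz e z), hs, hρ', hκ, hd, h00, hQ,
    ⟨E0, b, hE0, hR, hb⟩, fun u => ?_, fun u hu => ?_⟩
  · exact Pool.Agent.Helper53.LX.th_alg q s hs (fun u => (k : ℂ) * ρ u) κ c _
      ⟨0, by rw [h00]; exact one_ne_zero⟩ hQ u
  · have h5 : ((k : ℂ) * ρ u) ^ 2 / Real.pi = (k : ℂ) ^ 2 * (ρ u ^ 2 / Real.pi) := by ring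
    rw [h5]
    exact (isAlgebraic_natCast k |>.pow 2).mul (hρ u hu)

end

end Pool.Agent.Helper34.SH
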