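import Pool.Agent.Helper34.SH.Td
import Pool.Agent.Helper32.SH.Ty

/-!
PROJECT ALLQ (MP_274814_nt), block K_GT, only the independence of the polarisation is a hypothesis.
-/

set_option autoImplicit false

namespace Pool.Agent.Helper34.SH

open Finset Complex Pool.Agent.Helper34.LT LTG Pool.Agent.Helper34.LU
open Pool.Agent.Helper49.SH
open Pool.Agent.Helper24.LU (KR)

theorem tayP : TayP := fun _ _ _ T hd h0 hD f hf =>
  Pool.Agent.Helper32.SH.taylor_alg T hd h0 hD f hf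

theorem K_GT_ind {q : ℕ} {s : Finset ℕ} {ρ : ℕ → ℂ}
    (hind : ∀ E E' : Iq q → Iq q → ℚ, Pol E (Ns q s) → Pol E' (Ns q s) → Good E (Ns q s) →
      Good E' (Ns q s) → Valg E (Ns q s) = Valg E' (Ns q s)) (h : GoodS q s ρ)
    (hρ : ∀ u ∈ s, IsAlgebraic (KR q) (ρ u ^ 2 / Real.pi)) :
    ∃ (ρ' : ℕ → ℂ) (κ : s → ℂ) (c : Polynomial ℤ → ℂ) (τ : (s → ℂ) → ℂ), GT q s ρ' κ c τ :=
  K_GT_of tayP hind h hρ

end Pool.Agent.Helper34.SH
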