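import Pool.Agent.Helper34.SH.Te
import Pool.Agent.Helper35.SH.Ef

/-!
PROJECT ALLQ (MP_274814_nt), block K_GT.
-/

set_option autoImplicit false

namespace Pool.Agent.Helper34.SH

open Finset Complex Pool.Agent.Helper34.LT LTG Pool.Agent.Helper34.LU
open Pool.Agent.Helper49.SH
open Pool.Agent.Helper24.LU (KR)

theorem K_GT {q : ℕ} {s : Finset ℕ} {ρ : ℕ → ℂ} (h : GoodS q s ρ)
    (hρ : ∀ u ∈ s, IsAlgebraic (KR q) (ρ u ^ 2 / Real.pi)) :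
    ∃ (ρ' : ℕ → ℂ) (κ : s → ℂ) (c : Polynomial ℤ → ℂ) (τ : (s → ℂ) → ℂ), GT q s ρ' κ c τ :=
  K_GT_ind (fun _ _ h1 h2 h3 h4 => Pool.Agent.Helper35.SH.E_indep h1 h2 h3 h4) h hρ

end Pool.Agent.Helper34.SH
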